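import Pool.Agent.H48.Drn.Card
import Pool.Agent.H48.Drn.Adj

/-! Rooted-tree-level layer (on top of helper48's `RT`, `Gr`, `Same`, `ut`):
`A.add B`, `Lf`, positions `PosD`, balanced roots, `EQ`, `R1`, `path`, `chain`, `Good`. -/

set_option autoImplicit false

namespace Pool.Agent.H48.Drn

open RT

namespace RT

/-- `A.add B`: add `B` as a new branch at the root of `A`. -/
def add (A B : RT) : RT := node (B ::ₘ kids A)

theorem kids_inj {A B : RT} : A.kids = B.kids ↔ A = B :=
  ⟨fun h => by rw [← node_kids A, h, node_kids], fun h => by rw [h]⟩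

@[simp] theorem kids_add (A B : RT) : (A.add B).kids = B ::ₘ A.kids := kids_node _

theorem size_eq (A : RT) : A.size = 1 + (A.kids.map size).sum := by
  conv_lhs => rw [← node_kids A]
  rw [size_node]

@[simp] theorem size_add (A B : RT) : (A.add B).size = A.size + B.size := by
  rw [add, size_node, size_eq A]; simp; omega

theorem node_cons_eq (B : RT) (M : Multiset RT) : node (B ::ₘ M) = (node M).add B := by
  rw [add, kids_node]

theorem add_swap (A B C : RT) : (A.add B).add C = (A.add C).add B := by
  rw [← kids_inj]; simp [Multiset.cons_swap]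

theorem add_eq_add_iff {A B C D : RT} :
    A.add B = C.add D ↔ (A = C ∧ B = D) ∨ ∃ E : RT, A = E.add D ∧ C = E.add B := by
  rw [← kids_inj, kids_add, kids_add, Multiset.cons_eq_cons]
  constructor
  · rintro (⟨h1, h2⟩ | ⟨h, cs, h1, h2⟩)
    · exact Or.inl ⟨kids_inj.1 h2, h1⟩
    · refine Or.inr ⟨node cs, ?_, ?_⟩
      · rw [← kids_inj, h1]; simp
      · rw [← kids_inj, h2]; simp
  · rintro (⟨rfl, rfl⟩ | ⟨E, rfl, rfl⟩)
    · exact Or.inl ⟨rfl, rfl⟩
    · by_cases h : B = D
      · subst h; exact Or.inl ⟨rfl, rfl⟩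
      · exact Or.inr ⟨h, E.kids, by simp, by simp⟩

@[simp] theorem add_left_inj {A C B : RT} : A.add B = C.add B ↔ A = C := by
  rw [← kids_inj]; simp [kids_inj]

@[simp] theorem add_right_inj {A B D : RT} : A.add B = A.add D ↔ B = D := by
  rw [← kids_inj]; simp

theorem add_ne_pt {A B : RT} : A.add B ≠ pt := by
  intro h
  have := congrArg size h
  simp at this
  have := A.size_pos
  have := B.size_pos
  omega

theorem exists_add_of_mem {A B : RT} (h : B ∈ A.kids) : ∃ C : RT, A = C.add B := by
  obtain ⟨t, ht⟩ := Multiset.exists_cons_of_mem h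
  exact ⟨node t, by rw [← kids_inj, ht]; simp⟩

theorem mem_kids_add {A B C : RT} : C ∈ (A.add B).kids ↔ C = B ∨ C ∈ A.kids := by simp

/-- binary induction principle -/
theorem indAdd {P : RT → Prop} (h0 : P pt) (h1 : ∀ A B : RT, P A → P B → P (A.add B)) :
    ∀ A, P A := by
  intro A
  generalize hn : A.size = n
  induction n using Nat.strong_induction_on generalizing A with
  | _ n ih =>
    by_cases h : A.kids = 0
    · have : A = pt := by rw [← kids_inj, h]; simp
      rw [this]; exact h0
    · obtain ⟨B, hB⟩ := Multiset.exists_mem_of_ne_zero h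
      obtain ⟨C, rfl⟩ := exists_add_of_mem hB
      have h2 := C.size_pos
      have h3 := B.size_pos
      rw [size_add] at hn
      exact h1 _ _ (ih C.size (by omega) C rfl) (ih B.size (by omega) B rfl)

theorem eq_pt_or (A : RT) : A = pt ∨ ∃ B C : RT, A = B.add C := by
  induction A using indAdd with
  | h0 => exact Or.inl rfl
  | h1 A B _ _ => exact Or.inr ⟨A, B, rfl⟩

theorem eq_pt_of_size {A : RT} (h : A.size = 1) : A = pt := size_eq_one.1 h

theorem size_lt_of_mem' {A B : RT} (h : A ∈ B.kids) : A.size < B.size := size_lt_of_mem_kids h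

end RT

/-- `Lf A B`: `A` is obtained from `B` by deleting a (non-root) leaf; `Lf A B ↔ Del B A`. -/
abbrev Lf : RT → RT → Prop := Gr pt

theorem Gr.root {D : RT} (A : RT) : Gr D A (A.add D) := by
  conv => arg 2; rw [← node_kids A]
  exact Gr.here _

theorem Gr.child {D : RT} (A : RT) {B B' : RT} (h : Gr D B B') : Gr D (A.add B) (A.add B') :=
  Gr.there _ _ _ h

/-- induction principle for `Gr` in terms of `add` -/
@[elab_as_elim]
theorem Gr.recAdd {D : RT} {motive : ∀ A A' : RT, Gr D A A' → Prop}
    (root : ∀ A : RT, motive A (A.add D) (Gr.root A))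
    (child : ∀ (A : RT) (B B' : RT) (h : Gr D B B'), motive B B' h →
      motive (A.add B) (A.add B') (Gr.child A h))
    {A A' : RT} (h : Gr D A A') : motive A A' h := by
  have key : ∀ {A A' : RT}, Gr D A A' → ∀ h, motive A A' h := by
    intro A A' h
    induction h with
    | here M =>
      rw [node_cons_eq]
      intro h
      exact root _
    | there M A A' h ih =>
      rw [node_cons_eq, node_cons_eq]
      intro _
      exact child _ _ _ h (ih h)
  exact key h h

/-- case analysis for `Gr` in terms of `add` -/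
theorem Gr.casesAdd {D W L : RT} (h : Gr D W L) :
    L = W.add D ∨ ∃ A B B' : RT, W = A.add B ∧ L = A.add B' ∧ Gr D B B' := by
  cases h with
  | here M => exact Or.inl (node_cons_eq _ _)
  | there M A A' h => exact Or.inr ⟨node M, A, A', node_cons_eq _ _, node_cons_eq _ _, h⟩

theorem ut_add_comm (A B : RT) : ut (A.add B) = ut (B.add A) := by
  rw [ut_eq, add, add]
  have := same_step A.kids B.kids
  rwa [node_kids, node_kids] at this

theorem size_of_ut {A B : RT} (h : ut A = ut B) : A.size = B.size := (ut_eq.1 h).size_eq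

/-- induction along root moves -/
@[elab_as_elim]
theorem Same.indMove {B : RT} {motive : ∀ A : RT, Same A B → Prop}
    (refl : motive B (Same.refl B))
    (head : ∀ (P Q : RT) (h : Same (Q.add P) B) (h' : Same (P.add Q) B), motive (Q.add P) h →
      motive (P.add Q) h') {A : RT} (h : Same A B) : motive A h := by
  have key : ∀ {A : RT}, Same A B → ∀ h, motive A h := by
    intro A h
    induction h using Relation.ReflTransGen.head_induction_on with
    | refl => intro _; exact refl
    | @head a c hm hc ih =>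
      cases hm with
      | step M N =>
        rw [node_cons_eq] at ih hc ⊢
        intro h
        exact head (node M) (node N) hc h (ih hc)
  exact key h h

/-- The card of a tree at the vertex where its code is `A`: the multiset of free types of
the components after deletion of the vertex. -/
def cards (A : RT) : Multiset UT := A.kids.map ut

@[simp] theorem cards_pt : cards pt = 0 := by simp [cards]
@[simp] theorem cards_add (A B : RT) : cards (A.add B) = ut B ::ₘ cards A := by simp [cards]

/-- balanced: every branch has at most half of the vertices -/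
abbrev Bal (A : RT) : Prop := Cen A
/-- strictly balanced -/
def SBal (A : RT) : Prop := ∀ B ∈ A.kids, 2 * B.size < A.size

/-- position: a tree `P.add B` (root `r`, branch `B` at the child `b`), rerooted at a vertex `y` of
`B`, has code `D.add K`, where `K` is the branch at `y` that contains `r` and `D` is the rest. -/
inductive PosD : RT → RT → RT → RT → Prop
  | here (P B : RT) : PosD P B B P
  | deeper {P X C D K : RT} : PosD (X.add P) C D K → PosD P (X.add C) D K

/-- the class of rooted trees in which, hereditarily, all branches at a vertex have the same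
size. -/
inductive EQ : RT → Prop
  | mk (A : RT) (h1 : ∀ B ∈ A.kids, ∀ C ∈ A.kids, B.size = C.size) (h2 : ∀ B ∈ A.kids, EQ B) : EQ A

/-- paths rooted at an end vertex, `path n` has `n+1` vertices -/
def path : ℕ → RT
  | 0 => pt
  | n + 1 => pt.add (path n)

/-- `chain i Z`: a path with `i` vertices, the last of them joined to the root of `Z`; rooted at
the far end. -/
def chain : ℕ → RT → RT
  | 0, Z => Z
  | i + 1, Z => pt.add (chain i Z)

/-- `(Ru, Rv)` is a good pair of leaf deletions of `R` at the rooted level. -/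
def R1 (R Ru Rv : RT) : Prop :=
  Lf Ru R ∧ Lf Rv R ∧ Ru ≠ Rv ∧ ∀ S : RT, Lf Ru S → Lf Rv S → S = R

/-- every tree on at least 3 vertices with code `R` has a determining pair of dacards. -/
def Good (R : RT) : Prop :=
  ∀ (n : ℕ) (T : SimpleGraph (Fin n)) (z : Fin n), 3 ≤ n → Rt T Finset.univ z R → Det T


theorem Gr.size {D W L : RT} (h : Gr D W L) : L.size = W.size + D.size := by
  induction h using Gr.recAdd with
  | root A => simp
  | child A B B' _ ih => simp [ih]; omega

theorem Lf.size {A B : RT} (h : Lf A B) : B.size = A.size + 1 := by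
  have := Gr.size h
  simpa using this

theorem gr_add_iff {D A B S : RT} : Gr D (A.add B) S ↔
    (∃ A', Gr D A A' ∧ S = A'.add B) ∨ (∃ B', Gr D B B' ∧ S = A.add B') := by
  constructor
  · intro h
    rcases h.casesAdd with rfl | ⟨A0, B0, B0', hW, rfl, h'⟩
    · exact Or.inl ⟨A.add D, Gr.root A, add_swap A B D⟩
    · rcases add_eq_add_iff.1 hW with ⟨rfl, rfl⟩ | ⟨E, rfl, rfl⟩
      · exact Or.inr ⟨B0', h', rfl⟩
      · exact Or.inl ⟨E.add B0', Gr.child E h', add_swap _ _ _⟩
  · rintro (⟨A', h, rfl⟩ | ⟨B', h, rfl⟩)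
    · rcases h.casesAdd with rfl | ⟨A0, B0, B0', rfl, rfl, h'⟩
      · rw [add_swap]; exact Gr.root _
      · rw [add_swap, add_swap A0 B0' B]; exact Gr.child _ h'
    · exact Gr.child _ h

theorem Gr.left {D A A' : RT} (h : Gr D A A') (B : RT) : Gr D (A.add B) (A'.add B) :=
  gr_add_iff.2 (Or.inl ⟨A', h, rfl⟩)

theorem Gr.right {D B B' : RT} (h : Gr D B B') (A : RT) : Gr D (A.add B) (A.add B') :=
  Gr.child A h

theorem gr_pt_iff {D S : RT} : Gr D pt S ↔ S = pt.add D := by
  constructor
  · intro h
    rcases h.casesAdd with rfl | ⟨A0, B0, B0', hW, rfl, h'⟩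
    · rfl
    · exact absurd hW.symm add_ne_pt
  · rintro rfl; exact Gr.root _

/-- what can be attached-to in order to get `A.add B`. -/
theorem gr_to_add_iff {D W A B : RT} : Gr D W (A.add B) ↔
    (∃ A', Gr D A' A ∧ W = A'.add B) ∨ (∃ B', Gr D B' B ∧ W = A.add B') ∨ (B = D ∧ W = A) := by
  constructor
  · intro h
    rcases h.casesAdd with hL | ⟨A0, B0, B0', rfl, hL, h'⟩
    · rcases add_eq_add_iff.1 hL with ⟨rfl, rfl⟩ | ⟨E, rfl, rfl⟩
      · exact Or.inr (Or.inr ⟨rfl, rfl⟩)
      · exact Or.inl ⟨E, Gr.root _, rfl⟩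
    · rcases add_eq_add_iff.1 hL with ⟨rfl, rfl⟩ | ⟨E, rfl, rfl⟩
      · exact Or.inr (Or.inl ⟨B0, h', rfl⟩)
      · exact Or.inl ⟨E.add B0, Gr.child _ h', add_swap _ _ _⟩
  · rintro (⟨A', h, rfl⟩ | ⟨B', h, rfl⟩ | ⟨rfl, rfl⟩)
    · exact h.left _
    · exact h.right _
    · exact Gr.root _

theorem not_gr_pt {D W : RT} : ¬ Gr D W pt := by
  intro h
  have h1 := Gr.size h
  have h2 := W.size_pos
  have h3 := D.size_pos
  simp at h1; omega

theorem exists_lf {R : RT} (h : 2 ≤ R.size) : ∃ R', Lf R' R := by
  induction R using indAdd with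
  | h0 => simp at h
  | h1 A B ihA ihB =>
    by_cases hB : 2 ≤ B.size
    · obtain ⟨B', hB'⟩ := ihB hB
      exact ⟨_, hB'.right A⟩
    · have : B = pt := eq_pt_of_size (by have := B.size_pos; omega)
      subst this
      exact ⟨A, Gr.root A⟩

theorem gr_transport {D A A' S : RT} (h : Gr D A S) (hf : ut A' = ut A) :
    ∃ S', Gr D A' S' ∧ ut S' = ut S := by
  have hr : Same A' A := ut_eq.1 hf
  clear hf
  induction hr using Same.indMove with
  | refl => exact ⟨S, h, rfl⟩
  | head P Q _ _ ih =>
    obtain ⟨S', hS', hf⟩ := ih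
    rcases gr_add_iff.1 hS' with ⟨Q', hQ, rfl⟩ | ⟨P', hP, rfl⟩
    · exact ⟨P.add Q', hQ.right _, by rw [ut_add_comm, hf]⟩
    · exact ⟨P'.add Q, hP.left _, by rw [ut_add_comm, hf]⟩

theorem gr_code_aux {D A S : RT} (h : Gr D A S) : ∀ P : RT, ∃ K, ut K = ut (A.add P) ∧
    ut (D.add K) = ut (S.add P) := by
  induction h using Gr.recAdd with
  | root A =>
    intro P
    refine ⟨A.add P, rfl, ?_⟩
    rw [ut_add_comm, add_swap]
  | child A B B' _ ih =>
    intro P
    obtain ⟨K, h1, h2⟩ := ih (A.add P)
    refine ⟨K, ?_, ?_⟩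
    · rw [h1, ut_add_comm, add_swap]
    · rw [h2, ut_add_comm, add_swap]

theorem gr_code {D A S : RT} (h : Gr D A S) : ∃ K, ut K = ut A ∧ ut (D.add K) = ut S := by
  rcases h.casesAdd with rfl | ⟨A0, B0, B0', rfl, rfl, h'⟩
  · exact ⟨A, rfl, ut_add_comm _ _⟩
  · obtain ⟨K, h1, h2⟩ := gr_code_aux h' A0
    exact ⟨K, by rw [h1, ut_add_comm], by rw [h2, ut_add_comm]⟩

theorem gr_of_ut {D K A : RT} (h : ut K = ut A) : ∃ S, Gr D A S ∧ ut S = ut (D.add K) := by
  obtain ⟨S, h1, h2⟩ := gr_transport (D := D) (A := K) (A' := A) (S := K.add D) (Gr.root K) h.symm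
  exact ⟨S, h1, by rw [h2, ut_add_comm]⟩

/-! ### positions -/

theorem PosD.ut_eq {P B D K : RT} (h : PosD P B D K) : ut (D.add K) = ut (P.add B) := by
  induction h with
  | here P B => exact ut_add_comm _ _
  | deeper _ ih => rw [ih, add_swap, ut_add_comm]

theorem PosD.size_add {P B D K : RT} (h : PosD P B D K) : D.size + K.size = P.size + B.size := by
  have := size_of_ut h.ut_eq
  simpa using this

theorem PosD.size_le {P B D K : RT} (h : PosD P B D K) : P.size ≤ K.size := by
  induction h with
  | here P B => exact le_rfl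
  | deeper _ ih => simp at ih; omega

theorem PosD.size_le' {P B D K : RT} (h : PosD P B D K) : D.size ≤ B.size := by
  have := h.size_le
  have := h.size_add
  omega

theorem PosD.eq_or {P B D K : RT} (h : PosD P B D K) :
    (D = B ∧ K = P) ∨ (P.size < K.size ∧ D.size < B.size) := by
  cases h with
  | here => exact Or.inl ⟨rfl, rfl⟩
  | @deeper P X C D K h =>
    have h1 := h.size_le
    have h2 := h.size_add
    have h3 := X.size_pos
    simp at h1 h2 ⊢
    omega

theorem PosD.eq_of_size {P B D K : RT} (h : PosD P B D K) (hs : K.size ≤ P.size) : D = B ∧ K = P := by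
  rcases h.eq_or with h | h
  · exact h
  · omega

theorem PosD.eq_of_size' {P B D K : RT} (h : PosD P B D K) (hs : B.size ≤ D.size) :
    D = B ∧ K = P := by
  rcases h.eq_or with h | h
  · exact h
  · omega

/-- a deeper position: `B` is `W` with `D` attached somewhere, and the rest of the tree at `D` is
(as a free tree) `W` with `P` attached at the root. -/
theorem PosD.gr {P B D K : RT} (h : PosD P B D K) :
    (D = B ∧ K = P) ∨ ∃ W, Gr D W B ∧ ut K = ut (W.add P) := by
  induction h with
  | here P B => exact Or.inl ⟨rfl, rfl⟩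
  | @deeper P X C D K _ ih =>
    refine Or.inr ?_
    rcases ih with ⟨rfl, rfl⟩ | ⟨W, h1, h2⟩
    · exact ⟨X, Gr.root X, rfl⟩
    · refine ⟨X.add W, h1.right X, ?_⟩
      rw [h2, ut_add_comm, add_swap]

/-- moving up -/
theorem PosD.up {P B D K : RT} (h : PosD P B D K) :
    K.add D = P.add B ∨ ∃ D' K', PosD P B D' K' ∧ K.add D = D'.add K' := by
  induction h with
  | here P B => exact Or.inl rfl
  | @deeper P X C D K _ ih =>
    refine Or.inr ?_
    rcases ih with ih | ⟨D', K', h1, h2⟩
    · exact ⟨X.add C, P, PosD.here _ _, by rw [ih, add_swap]⟩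
    · exact ⟨D', K', PosD.deeper h1, h2⟩

/-- moving down -/
theorem PosD.down {P B D E V K : RT} (h : PosD P B D K) (hD : D = E.add V) :
    PosD P B V (E.add K) := by
  induction h with
  | here P B => subst hD; exact PosD.deeper (PosD.here _ _)
  | deeper _ ih => exact PosD.deeper (ih hD)

theorem same_iff {S S' : RT} : ut S = ut S' ↔
    S = S' ∨ ∃ P B D K, S = P.add B ∧ S' = D.add K ∧ PosD P B D K := by
  constructor
  · intro h
    have hr : Same S S' := ut_eq.1 h
    clear h
    have hr' : Same S' S := hr.symm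
    clear hr
    induction hr' using Same.indMove with
    | refl => exact Or.inl rfl
    | head V U hs _ ih =>
      rcases ih with rfl | ⟨P, B, D, K, rfl, hU, hp⟩
      · exact Or.inr ⟨U, V, V, U, rfl, rfl, PosD.here _ _⟩
      · rcases add_eq_add_iff.1 hU with ⟨rfl, rfl⟩ | ⟨E, h1, rfl⟩
        · rcases hp.up with h | ⟨D', K', h1, h2⟩
          · exact Or.inl h.symm
          · exact Or.inr ⟨P, B, D', K', rfl, h2, h1⟩
        · subst h1
          exact Or.inr ⟨P, B, V, E.add K, rfl, rfl, hp.down rfl⟩
  · rintro (rfl | ⟨P, B, D, K, rfl, rfl, hp⟩)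
    · rfl
    · exact hp.ut_eq.symm

/-! ### balanced roots -/

theorem SBal.bal {A : RT} (h : SBal A) : Bal A := fun B hB => (h B hB).le

theorem SBal.eq {A B : RT} (hA : SBal A) (hB : Bal B) (h : ut A = ut B) : A = B := by
  rcases same_iff.1 h with h | ⟨P, C, D, K, rfl, rfl, hp⟩
  · exact h
  · exfalso
    have h1 := hA C (by simp)
    have h2 := hB K (by simp)
    have h3 := hp.size_le
    have h4 := hp.size_add
    simp at h1 h2
    omega

theorem Bal.eq_or {A B : RT} (hA : Bal A) (hB : Bal B) (h : ut A = ut B) :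
    A = B ∨ ∃ P Q : RT, P.size = Q.size ∧ A = P.add Q ∧ B = Q.add P := by
  rcases same_iff.1 h with h | ⟨P, C, D, K, rfl, rfl, hp⟩
  · exact Or.inl h
  · right
    have h1 := hA C (by simp)
    have h2 := hB K (by simp)
    have h3 := hp.size_le
    have h4 := hp.size_add
    simp at h1 h2
    obtain ⟨rfl, rfl⟩ := hp.eq_of_size (by omega)
    exact ⟨K, D, by omega, rfl, rfl⟩

theorem exists_bal_aux : ∀ (m : ℕ) (A : RT), (∀ B ∈ A.kids, B.size ≤ m) → ∃ B, ut B = ut A ∧ Bal B := by
  intro m
  induction m with
  | zero =>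
    intro A h
    refine ⟨A, rfl, fun B hB => ?_⟩
    have := h B hB
    have := B.size_pos
    omega
  | succ m ih =>
    intro A h
    by_cases hb : Bal A
    · exact ⟨A, rfl, hb⟩
    · unfold Bal Cen at hb
      push Not at hb
      obtain ⟨C, hC, hs⟩ := hb
      obtain ⟨P, rfl⟩ := exists_add_of_mem hC
      have h1 := h C hC
      obtain ⟨B, hB, hB2⟩ := ih (C.add P) (by
        intro B hB
        rw [mem_kids_add] at hB
        simp at hs
        rcases hB with rfl | hB
        · omega
        · have := size_lt_of_mem' hB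
          omega)
      exact ⟨B, by rw [hB, ut_add_comm], hB2⟩

theorem exists_bal (A : RT) : ∃ B, ut B = ut A ∧ Bal B :=
  exists_bal_aux A.size A (fun _ hB => (size_lt_of_mem' hB).le)

/-! ### ways to prove `Good` -/

theorem card_cards (A : RT) : Multiset.card (cards A) = Multiset.card A.kids := by simp [cards]

/-- sizes of the cards -/
theorem map_size_of_cards {S R : RT} (h : cards S = cards R) :
    S.kids.map size = R.kids.map size := by
  have := congrArg (Multiset.map usize) h
  simpa [cards, Multiset.map_map, Function.comp_def] using this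

theorem size_of_cards {S R : RT} (h : cards S = cards R) : S.size = R.size := by
  rw [size_eq S, size_eq R, map_size_of_cards h]

theorem Bal.congr_cards {S R : RT} (hR : Bal R) (h : cards S = cards R) : Bal S := by
  intro B hB
  have h1 : B.size ∈ S.kids.map size := Multiset.mem_map_of_mem _ hB
  rw [map_size_of_cards h, Multiset.mem_map] at h1
  obtain ⟨C, hC, hC'⟩ := h1
  rw [← hC', size_of_cards h]; exact hR C hC

theorem SBal.congr_cards {S R : RT} (hR : SBal R) (h : cards S = cards R) : SBal S := by
  intro B hB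
  have h1 : B.size ∈ S.kids.map size := Multiset.mem_map_of_mem _ hB
  rw [map_size_of_cards h, Multiset.mem_map] at h1
  obtain ⟨C, hC, hC'⟩ := h1
  rw [← hC', size_of_cards h]; exact hR C hC

/-- two leaf cards -/
theorem good_of_leaf {R Ru Rv : RT} (hu : Lf Ru R) (hv : Lf Rv R) (hne : Ru ≠ Rv)
    (h : ∀ S S' : RT, ut S = ut S' → Lf Ru S → Lf Rv S' → ut S = ut R) : Good R := by
  intro n T z hn hT
  refine det_of_leaf_pair hn hT hu hv hne ?_
  intro Q X Y _ hX hY hXs hYs
  obtain ⟨S, hS1, hS2⟩ := gr_transport (D := pt) (A := X) (A' := Ru) (S := Q) hX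
    (ut_eq.2 hXs.symm)
  obtain ⟨S', hS1', hS2'⟩ := gr_transport (D := pt) (A := Y) (A' := Rv) (S := Q) hY
    (ut_eq.2 hYs.symm)
  have := h S S' (by rw [hS2, hS2']) hS1 hS1'
  exact ut_eq.1 (by rw [← hS2, this])

/-- the cards of a vertex (code `M.add N`) and of the root of its branch `N`, which must be a
smallest branch. -/
theorem good_of_adj {M N : RT} (hM : ∀ A ∈ M.kids, N.size ≤ A.size) (hbig : N.size < M.size)
    (h : ∀ M' Z N' : RT, Multiset.card M'.kids = Multiset.card M.kids → cards N' = cards N →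
      cards (M'.add Z) = cards (M.add N) →
      ((Z = N' ∧ ut M' = ut M) ∨ (∃ Q, Gr N' Q Z ∧ ut (M'.add Q) = ut M)) →
      ut (M'.add Z) = ut (M.add N)) : Good (M.add N) := by
  intro n T z hn hT
  rw [add] at hT
  rw [← node_kids N] at hT
  refine det_of_adj_pair hT (by simpa using hM) (by simpa using hbig) ?_
  intro Z M' N' h1 h2 h3 h4
  have := h (node M') Z (node N') (by simpa using h1) (by simpa [cards] using h2)
    (by simpa [cards] using h3) (by
      rcases h4 with ⟨h5, h6⟩ | ⟨Q, h5, h6⟩
      · left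
        exact ⟨h5, by simpa using h6⟩
      · right
        refine ⟨Q, h5, ?_⟩
        rw [add, kids_node]
        simpa using h6)
  rw [← ut_eq]
  rw [add, add, kids_node] at this
  simpa using this

theorem Good.congr {R R' : RT} (h : Good R) (hf : ut R = ut R') : Good R' := by
  intro n T z hn hT
  obtain ⟨c, _, hc⟩ := hT.of_same (ut_eq.1 hf.symm)
  exact h n T c hn hc

/-- reduction of the frozen statement to codes -/
theorem main_of_good (N : ℕ) (h : ∀ R : RT, Bal R → N ≤ R.size → Good R) :
    ∃ N : ℕ, ∀ n : ℕ, N ≤ n → ∀ T : SimpleGraph (Fin n), T.IsTree → Det T := by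
  refine ⟨N + 3, fun n hn T hT => ?_⟩
  have hn0 : 0 < n := by omega
  obtain ⟨R, hR⟩ := exists_code hT ⟨0, hn0⟩
  obtain ⟨R', hR', hc⟩ := exists_cen R
  obtain ⟨c, _, hc'⟩ := hR.of_same hR'
  have hsz := hc'.card
  simp at hsz
  exact h R' hc (by omega) n T c (by omega) hc'

end Pool.Agent.H48.Drn
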