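import Pool.Agent.H91.Drn.Defs

/-! Basic facts on `Att`, `Rer`, `PosD`, balanced roots. -/

set_option autoImplicit false

namespace Pool.Agent.Drn

open RT

theorem Att.size {D W L : RT} (h : Att D W L) : L.size = W.size + D.size := by
  induction h with
  | root A => simp
  | child A _ ih => simp [ih]; omega

theorem Lf.size {A B : RT} (h : Lf A B) : B.size = A.size + 1 := by
  have := Att.size h
  simpa using this

theorem att_add_iff {D A B S : RT} : Att D (A.add B) S ↔
    (∃ A', Att D A A' ∧ S = A'.add B) ∨ (∃ B', Att D B B' ∧ S = A.add B') := by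
  constructor
  · intro h
    generalize hW : A.add B = W at h
    cases h with
    | root =>
      subst hW
      exact Or.inl ⟨A.add D, Att.root A, add_right_comm A B D⟩
    | @child A0 B0 B0' h =>
      rcases add_eq_add_iff.1 hW with ⟨rfl, rfl⟩ | ⟨E, rfl, rfl⟩
      · exact Or.inr ⟨B0', h, rfl⟩
      · exact Or.inl ⟨E.add B0', Att.child E h, add_right_comm _ _ _⟩
  · rintro (⟨A', h, rfl⟩ | ⟨B', h, rfl⟩)
    · cases h with
      | root => rw [add_right_comm]; exact Att.root _
      | @child A0 B0 B0' h =>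
        rw [add_right_comm, add_right_comm A0 B0' B]; exact Att.child _ h
    · exact Att.child _ h

theorem Att.left {D A A' : RT} (h : Att D A A') (B : RT) : Att D (A.add B) (A'.add B) :=
  att_add_iff.2 (Or.inl ⟨A', h, rfl⟩)

theorem Att.right {D B B' : RT} (h : Att D B B') (A : RT) : Att D (A.add B) (A.add B') :=
  Att.child A h

theorem att_pt_iff {D S : RT} : Att D pt S ↔ S = pt.add D := by
  constructor
  · intro h
    generalize hW : pt = W at h
    cases h with
    | root => rfl
    | @child A0 B0 B0' h => exact absurd hW.symm add_ne_pt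
  · rintro rfl; exact Att.root _

/-- what can be attached-to in order to get `A.add B`. -/
theorem att_to_add_iff {D W A B : RT} : Att D W (A.add B) ↔
    (∃ A', Att D A' A ∧ W = A'.add B) ∨ (∃ B', Att D B' B ∧ W = A.add B') ∨ (B = D ∧ W = A) := by
  constructor
  · intro h
    generalize hL : A.add B = L at h
    cases h with
    | root =>
      rcases add_eq_add_iff.1 hL with ⟨rfl, rfl⟩ | ⟨E, rfl, rfl⟩
      · exact Or.inr (Or.inr ⟨rfl, rfl⟩)
      · exact Or.inl ⟨E, Att.root _, rfl⟩
    | @child A0 B0 B0' h =>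
      rcases add_eq_add_iff.1 hL with ⟨rfl, rfl⟩ | ⟨E, rfl, rfl⟩
      · exact Or.inr (Or.inl ⟨B0, h, rfl⟩)
      · exact Or.inl ⟨E.add B0, Att.child _ h, add_right_comm _ _ _⟩
  · rintro (⟨A', h, rfl⟩ | ⟨B', h, rfl⟩ | ⟨rfl, rfl⟩)
    · exact h.left _
    · exact h.right _
    · exact Att.root _

theorem not_att_pt {D W : RT} : ¬ Att D W pt := by
  intro h
  have h1 := Att.size h
  have h2 := W.size_pos
  have h3 := D.size_pos
  simp at h1; omega

theorem exists_lf {R : RT} (h : 2 ≤ R.size) : ∃ R', Lf R' R := by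
  induction R using indAdd with
  | h0 => simp at h
  | h1 A B ihA ihB =>
    by_cases hB : 2 ≤ B.size
    · obtain ⟨B', hB'⟩ := ihB hB
      exact ⟨_, hB'.right A⟩
    · have : B = pt := size_eq_one (by have := B.size_pos; omega)
      subst this
      exact ⟨A, Att.root A⟩

theorem att_transport {D A A' S : RT} (h : Att D A S) (hf : fr A' = fr A) :
    ∃ S', Att D A' S' ∧ fr S' = fr S := by
  have hr : Rer A' A := fr_eq_iff.1 hf
  clear hf
  induction hr using Relation.ReflTransGen.head_induction_on with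
  | refl => exact ⟨S, h, rfl⟩
  | @head a c hm _ ih =>
    obtain ⟨S', hS', hf⟩ := ih
    obtain ⟨P, Q, rfl, rfl⟩ := hm
    rcases att_add_iff.1 hS' with ⟨Q', hQ, rfl⟩ | ⟨P', hP, rfl⟩
    · exact ⟨P.add Q', hQ.right _, by rw [fr_add_comm, hf]⟩
    · exact ⟨P'.add Q, hP.left _, by rw [fr_add_comm, hf]⟩

theorem att_code_aux {D A S : RT} (h : Att D A S) : ∀ P : RT, ∃ K, fr K = fr (A.add P) ∧
    fr (D.add K) = fr (S.add P) := by
  induction h with
  | root A =>
    intro P
    refine ⟨A.add P, rfl, ?_⟩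
    rw [fr_add_comm, add_right_comm]
  | @child A B B' _ ih =>
    intro P
    obtain ⟨K, h1, h2⟩ := ih (A.add P)
    refine ⟨K, ?_, ?_⟩
    · rw [h1, fr_add_comm, add_right_comm]
    · rw [h2, fr_add_comm, add_right_comm]

theorem att_code {D A S : RT} (h : Att D A S) : ∃ K, fr K = fr A ∧ fr (D.add K) = fr S := by
  cases h with
  | root => exact ⟨A, rfl, fr_add_comm _ _⟩
  | @child A0 B0 B0' h =>
    obtain ⟨K, h1, h2⟩ := att_code_aux h A0
    exact ⟨K, by rw [h1, fr_add_comm], by rw [h2, fr_add_comm]⟩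

theorem att_of_fr {D K A : RT} (h : fr K = fr A) : ∃ S, Att D A S ∧ fr S = fr (D.add K) := by
  obtain ⟨S, h1, h2⟩ := att_transport (D := D) (A := K) (A' := A) (S := K.add D) (Att.root K) h.symm
  exact ⟨S, h1, by rw [h2, fr_add_comm]⟩

/-! ### positions -/

theorem PosD.fr_eq {P B D K : RT} (h : PosD P B D K) : fr (D.add K) = fr (P.add B) := by
  induction h with
  | here P B => exact fr_add_comm _ _
  | deeper _ ih => rw [ih, add_right_comm, fr_add_comm]

theorem PosD.size_add {P B D K : RT} (h : PosD P B D K) : D.size + K.size = P.size + B.size := by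
  have := size_of_fr h.fr_eq
  simpa using this

theorem PosD.size_le {P B D K : RT} (h : PosD P B D K) : P.size ≤ K.size := by
  induction h with
  | here P B => exact le_rfl
  | deeper _ ih => simp at ih; omega

theorem PosD.size_le' {P B D K : RT} (h : PosD P B D K) : D.size ≤ B.size := by
  have := h.size_le
  have := h.size_add
  omega

theorem PosD.eq_or {P B D K : RT} (h : PosD P B D K) :
    (D = B ∧ K = P) ∨ (P.size < K.size ∧ D.size < B.size) := by
  cases h with
  | here => exact Or.inl ⟨rfl, rfl⟩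
  | @deeper P X C D K h =>
    have h1 := h.size_le
    have h2 := h.size_add
    have h3 := X.size_pos
    simp at h1 h2 ⊢
    omega

theorem PosD.eq_of_size {P B D K : RT} (h : PosD P B D K) (hs : K.size ≤ P.size) : D = B ∧ K = P := by
  rcases h.eq_or with h | h
  · exact h
  · omega

theorem PosD.eq_of_size' {P B D K : RT} (h : PosD P B D K) (hs : B.size ≤ D.size) :
    D = B ∧ K = P := by
  rcases h.eq_or with h | h
  · exact h
  · omega

/-- a deeper position: `B` is `W` with `D` attached somewhere, and the rest of the tree at `D` is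
(as a free tree) `W` with `P` attached at the root. -/
theorem PosD.att {P B D K : RT} (h : PosD P B D K) :
    (D = B ∧ K = P) ∨ ∃ W, Att D W B ∧ fr K = fr (W.add P) := by
  induction h with
  | here P B => exact Or.inl ⟨rfl, rfl⟩
  | @deeper P X C D K _ ih =>
    refine Or.inr ?_
    rcases ih with ⟨rfl, rfl⟩ | ⟨W, h1, h2⟩
    · exact ⟨X, Att.root X, rfl⟩
    · refine ⟨X.add W, h1.right X, ?_⟩
      rw [h2, fr_add_comm, add_right_comm]

/-- moving up -/
theorem PosD.up {P B D K : RT} (h : PosD P B D K) :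
    K.add D = P.add B ∨ ∃ D' K', PosD P B D' K' ∧ K.add D = D'.add K' := by
  induction h with
  | here P B => exact Or.inl rfl
  | @deeper P X C D K _ ih =>
    refine Or.inr ?_
    rcases ih with ih | ⟨D', K', h1, h2⟩
    · exact ⟨X.add C, P, PosD.here _ _, by rw [ih, add_right_comm]⟩
    · exact ⟨D', K', PosD.deeper h1, h2⟩

/-- moving down -/
theorem PosD.down {P B D E V K : RT} (h : PosD P B D K) (hD : D = E.add V) :
    PosD P B V (E.add K) := by
  induction h with
  | here P B => subst hD; exact PosD.deeper (PosD.here _ _)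
  | deeper _ ih => exact PosD.deeper (ih hD)

theorem rer_iff {S S' : RT} : fr S = fr S' ↔
    S = S' ∨ ∃ P B D K, S = P.add B ∧ S' = D.add K ∧ PosD P B D K := by
  constructor
  · intro h
    have hr : Rer S S' := fr_eq_iff.1 h
    clear h
    induction hr with
    | refl => exact Or.inl rfl
    | @tail S1 S2 _ hm ih =>
      obtain ⟨U, V, hU, rfl⟩ := hm
      rcases ih with rfl | ⟨P, B, D, K, rfl, rfl, hp⟩
      · exact Or.inr ⟨U, V, V, U, hU, rfl, PosD.here _ _⟩
      · rcases add_eq_add_iff.1 hU with ⟨rfl, rfl⟩ | ⟨E, h1, rfl⟩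
        · rcases hp.up with h | ⟨D', K', h1, h2⟩
          · exact Or.inl h.symm
          · exact Or.inr ⟨P, B, D', K', rfl, h2, h1⟩
        · exact Or.inr ⟨P, B, V, E.add K, rfl, rfl, hp.down h1⟩
  · rintro (rfl | ⟨P, B, D, K, rfl, rfl, hp⟩)
    · rfl
    · exact hp.fr_eq.symm

/-! ### balanced roots -/

theorem SBal.bal {A : RT} (h : SBal A) : Bal A := fun B hB => (h B hB).le

theorem SBal.eq {A B : RT} (hA : SBal A) (hB : Bal B) (h : fr A = fr B) : A = B := by
  rcases rer_iff.1 h with h | ⟨P, C, D, K, rfl, rfl, hp⟩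
  · exact h
  · exfalso
    have h1 := hA C (by simp)
    have h2 := hB K (by simp)
    have h3 := hp.size_le
    have h4 := hp.size_add
    simp at h1 h2
    omega

theorem Bal.eq_or {A B : RT} (hA : Bal A) (hB : Bal B) (h : fr A = fr B) :
    A = B ∨ ∃ P Q : RT, P.size = Q.size ∧ A = P.add Q ∧ B = Q.add P := by
  rcases rer_iff.1 h with h | ⟨P, C, D, K, rfl, rfl, hp⟩
  · exact Or.inl h
  · right
    have h1 := hA C (by simp)
    have h2 := hB K (by simp)
    have h3 := hp.size_le
    have h4 := hp.size_add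
    simp at h1 h2
    obtain ⟨rfl, rfl⟩ := hp.eq_of_size (by omega)
    exact ⟨K, D, by omega, rfl, rfl⟩

theorem exists_bal_aux : ∀ (m : ℕ) (A : RT), (∀ B ∈ A.ch, B.size ≤ m) → ∃ B, fr B = fr A ∧ Bal B := by
  intro m
  induction m with
  | zero =>
    intro A h
    refine ⟨A, rfl, fun B hB => ?_⟩
    have := h B hB
    have := B.size_pos
    omega
  | succ m ih =>
    intro A h
    by_cases hb : Bal A
    · exact ⟨A, rfl, hb⟩
    · unfold Bal at hb
      push Not at hb
      obtain ⟨C, hC, hs⟩ := hb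
      obtain ⟨P, rfl⟩ := exists_add_of_mem hC
      have h1 := h C hC
      obtain ⟨B, hB, hB2⟩ := ih (C.add P) (by
        intro B hB
        rw [mem_ch_add] at hB
        simp at hs
        rcases hB with rfl | hB
        · omega
        · have := size_lt_of_mem hB
          omega)
      exact ⟨B, by rw [hB, fr_add_comm], hB2⟩

theorem exists_bal (A : RT) : ∃ B, fr B = fr A ∧ Bal B :=
  exists_bal_aux A.size A (fun _ hB => (size_lt_of_mem hB).le)

/-! ### ways to prove `Good` -/

theorem card_cards (A : RT) : Multiset.card (cards A) = Multiset.card A.ch := by simp [cards]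

theorem cards_pt_add_eq {S F : RT} (h : cards S = cards (pt.add F)) :
    ∃ F', S = pt.add F' ∧ fr F' = fr F := by
  rw [cards_add, cards_pt] at h
  have h1 : Multiset.card S.ch = 1 := by rw [← card_cards, h]; rfl
  obtain ⟨F', hF'⟩ := Multiset.card_eq_one.1 h1
  refine ⟨F', ?_, ?_⟩
  · rw [← ch_inj, hF']; simp
  · rw [cards, hF'] at h
    simpa using h

theorem good_of_leaf {R Ru Rv : RT} (hu : Lf Ru R) (hv : Lf Rv R)
    (h : ∀ S S' : RT, fr S = fr S' → Lf Ru S → Lf Rv S' → fr S = fr R) : Good R := by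
  obtain ⟨K, hK1, hK2⟩ := att_code hu
  obtain ⟨K', hK1', hK2'⟩ := att_code hv
  refine ⟨pt.add K, pt.add K', hK2, hK2', ?_, Or.inr (Or.inl (by simp))⟩
  intro S S' hS h1 h2
  obtain ⟨F, rfl, hF⟩ := cards_pt_add_eq h1
  obtain ⟨F', rfl, hF'⟩ := cards_pt_add_eq h2
  obtain ⟨S1, hS1, hS1'⟩ := att_of_fr (D := pt) (K := F) (A := Ru) (by rw [hF, hK1])
  obtain ⟨S2, hS2, hS2'⟩ := att_of_fr (D := pt) (K := F') (A := Rv) (by rw [hF', hK1'])
  have := h S1 S2 (by rw [hS1', hS2', hS]) hS1 hS2
  rw [← hS1', this, hK2]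

theorem good_of_mixed {R Ru Rb : RT} (hu : Lf Ru R) (hb : fr Rb = fr R)
    (h : ∀ S S' : RT, fr S = fr S' → Lf Ru S → cards S' = cards Rb → fr S = fr R) : Good R := by
  obtain ⟨K, hK1, hK2⟩ := att_code hu
  refine ⟨pt.add K, Rb, hK2, hb, ?_, Or.inr (Or.inl (by simp))⟩
  intro S S' hS h1 h2
  obtain ⟨F, rfl, hF⟩ := cards_pt_add_eq h1
  obtain ⟨S1, hS1, hS1'⟩ := att_of_fr (D := pt) (K := F) (A := Ru) (by rw [hF, hK1])
  have := h S1 S' (by rw [hS1', hS]) hS1 h2
  rw [← hS1', this, hK2]

theorem good_of_disj {R Ra Rb : RT} (ha : fr Ra = fr R) (hb : fr Rb = fr R) (hd : Disj Ra Rb)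
    (h : ∀ S S' : RT, fr S = fr S' → cards S = cards Ra → cards S' = cards Rb → fr S = fr R) :
    Good R :=
  ⟨Ra, Rb, ha, hb, fun S S' h1 h2 h3 => by rw [h S S' h1 h2 h3, ha], Or.inl hd⟩

theorem Good.congr {R R' : RT} (h : Good R) (hf : fr R = fr R') : Good R' := by
  obtain ⟨Ra, Rb, h1, h2, h3, h4⟩ := h
  exact ⟨Ra, Rb, h1.trans hf, h2.trans hf, h3, h4⟩

/-- sizes of the cards -/
theorem map_size_of_cards {S R : RT} (h : cards S = cards R) : S.ch.map RT.size = R.ch.map RT.size := by
  have := congrArg (Multiset.map fsize) h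
  simpa [cards, Multiset.map_map, Function.comp_def] using this

theorem Bal.congr_cards {S R : RT} (hR : Bal R) (h : cards S = cards R) (hs : S.size = R.size) :
    Bal S := by
  intro B hB
  have h1 : B.size ∈ S.ch.map RT.size := Multiset.mem_map_of_mem _ hB
  rw [map_size_of_cards h, Multiset.mem_map] at h1
  obtain ⟨C, hC, hC'⟩ := h1
  rw [← hC', hs]; exact hR C hC

theorem size_of_cards {S R : RT} (h : cards S = cards R) : S.size = R.size := by
  rw [size_eq S, size_eq R, map_size_of_cards h]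

theorem SBal.congr_cards {S R : RT} (hR : SBal R) (h : cards S = cards R) : SBal S := by
  intro B hB
  have h1 : B.size ∈ S.ch.map RT.size := Multiset.mem_map_of_mem _ hB
  rw [map_size_of_cards h, Multiset.mem_map] at h1
  obtain ⟨C, hC, hC'⟩ := h1
  rw [← hC', size_of_cards h]; exact hR C hC

end Pool.Agent.Drn
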