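import Pool.Agent.H91.Drn.Paths

/-! Existence of good mixed pairs. -/

set_option autoImplicit false

namespace Pool.Agent.H48.Drn

open RT

theorem nonpath_aux {X Xu : RT} (hX : ∀ m, X ≠ path m) (hu : Lf Xu X) (h : X = pt.add Xu) : False := by
  subst h
  obtain ⟨m, rfl⟩ := path_of_lf hu
  exact hX (m + 1) rfl

theorem nonpath_aux2 {X X1 Xu : RT} (hX : ∀ m, X ≠ path m) (hu : Lf Xu X) (h : X = pt.add X1)
    (h' : Lf X1 (pt.add Xu)) : False := by
  subst h
  obtain ⟨m, rfl, _⟩ := path_of_cross _ X1 Xu rfl h' hu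
  exact hX (m + 1) rfl

theorem mkMix {X Y Xu Yv : RT} (hs : X.size = Y.size) (hne : X ≠ Y) (hX : ∀ m, X ≠ path m)
    (hY : ∀ m, Y ≠ path m) (hu : Lf Xu X) (hv : Lf Yv Y) (h1 : Xu ≠ Yv)
    (h2 : ¬ (Lf X ((pt.add Xu).add pt) ∧ Lf Y ((pt.add Yv).add pt)))
    (h4 : ∀ X1, X = pt.add X1 → Lf X1 Y → Lf Xu (pt.add Yv) → Yv = X1)
    (h4' : ∀ Y1, Y = pt.add Y1 → Lf Y1 X → Lf Yv (pt.add Xu) → Xu = Y1) : Mix X Y Xu Yv where
  size := hs
  ne := hne
  hu := hu
  hv := hv
  h1 := h1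
  h2 := h2
  h3 := fun _ _ _ h _ _ => nonpath_aux hY hv h
  h3' := fun _ _ _ h _ _ => nonpath_aux hX hu h
  h4 := h4
  h4' := h4'
  h5 := fun _ _ h _ h' _ => nonpath_aux2 hX hu h h'

theorem not_h2_of {X Xu : RT} (hX : ∀ m, X ≠ path m) (hu : Lf Xu X)
    (hf : ∀ E, X = (pt.add E).add pt → ¬ Lf E Xu) : ¬ Lf X ((pt.add Xu).add pt) := by
  intro h
  rcases gr_to_add_iff.1 h with ⟨A', h1, h2⟩ | ⟨B', h1, h2⟩ | ⟨_, h2⟩
  · rcases lf_to_pt_add h1 with ⟨B', h3, rfl⟩ | ⟨rfl, rfl⟩
    · exact hf B' h2 h3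
    · exact hX 1 h2
  · exact not_gr_pt h1
  · exact nonpath_aux hX hu h2

theorem exists_mix_A {X Y X1 : RT} (hs : X.size = Y.size) (hne : X ≠ Y) (hX : ∀ m, X ≠ path m)
    (hY : ∀ m, Y ≠ path m) (hX1 : X = pt.add X1) (h : Lf X1 Y) : ∃ Xu Yv, Mix X Y Xu Yv := by
  have h2 : 2 ≤ X.size := by subst hX1; have := X1.size_pos; simp; omega
  obtain ⟨Xu, hXu⟩ := exists_lf h2
  refine ⟨Xu, X1, mkMix hs hne hX hY hXu h ?_ ?_ ?_ ?_⟩
  · rintro rfl
    exact nonpath_aux hX hXu hX1
  · rintro ⟨h3, _⟩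
    refine not_h2_of hX hXu ?_ h3
    intro E hE _
    rw [hX1] at hE
    have := congrArg (fun A => Multiset.card (kids A)) hE
    simp at this
  · intro X1' hX1' _ _
    rw [hX1] at hX1'
    simpa using hX1'
  · intro Y1 hY1 h3 _
    subst hX1 hY1
    obtain ⟨m, rfl, _⟩ := path_of_cross _ X1 Y1 rfl h h3
    exact (hX (m + 1) rfl).elim

theorem exists_mix_C {X Y E F : RT} (hs : X.size = Y.size) (hne : X ≠ Y) (hX : ∀ m, X ≠ path m)
    (hY : ∀ m, Y ≠ path m) (h5 : 4 ≤ X.size) (hE : X = (pt.add E).add pt)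
    (hF : Y = (pt.add F).add pt) (hEp : ∀ m, E ≠ path m) : ∃ Xu Yv, Mix X Y Xu Yv := by
  have hF2 : 2 ≤ F.size := by rw [hs, hF] at h5; simp at h5; omega
  obtain ⟨F', hF'⟩ := exists_lf hF2
  refine ⟨pt.add E, (pt.add F').add pt, mkMix hs hne hX hY ?_ ?_ ?_ ?_ ?_ ?_⟩
  · rw [hE]; exact Gr.root _
  · rw [hF]; exact (hF'.right pt).left pt
  · intro h
    have := congrArg (fun A => Multiset.card (kids A)) h
    simp at this
  · rintro ⟨h3, _⟩
    refine not_h2_of hX (by rw [hE]; exact Gr.root _) ?_ h3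
    intro E' hE' h4
    have : E' = E := by
      rw [hE] at hE'
      simpa using hE'.symm
    subst this
    obtain ⟨m, hm⟩ := path_of_lf h4
    exact hEp m hm
  · intro X1 hX1 _ _
    exfalso
    rw [hE] at hX1
    have := congrArg (fun A => Multiset.card (kids A)) hX1
    simp at this
  · intro Y1 hY1 _ _
    exfalso
    rw [hF] at hY1
    have := congrArg (fun A => Multiset.card (kids A)) hY1
    simp at this

theorem exists_mix {X Y : RT} (hs : X.size = Y.size) (hne : X ≠ Y) (hX : ∀ m, X ≠ path m)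
    (hY : ∀ m, Y ≠ path m) (h5 : 4 ≤ X.size) : ∃ Xu Yv, Mix X Y Xu Yv := by
  by_cases hA : ∃ X1, X = pt.add X1 ∧ Lf X1 Y
  · obtain ⟨X1, h1, h2⟩ := hA
    exact exists_mix_A hs hne hX hY h1 h2
  by_cases hB : ∃ Y1, Y = pt.add Y1 ∧ Lf Y1 X
  · obtain ⟨Y1, h1, h2⟩ := hB
    obtain ⟨Yv, Xu, m⟩ := exists_mix_A hs.symm hne.symm hY hX h1 h2
    exact ⟨Xu, Yv, m.symm⟩
  by_cases hC : (∃ E, X = (pt.add E).add pt) ∧ ∃ F, Y = (pt.add F).add pt
  · obtain ⟨⟨E, hE⟩, F, hF⟩ := hC
    by_cases hEp : ∀ m, E ≠ path m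
    · exact exists_mix_C hs hne hX hY h5 hE hF hEp
    by_cases hFp : ∀ m, F ≠ path m
    · obtain ⟨Yv, Xu, m⟩ := exists_mix_C hs.symm hne.symm hY hX (by omega) hF hE hFp
      exact ⟨Xu, Yv, m.symm⟩
    push Not at hEp hFp
    obtain ⟨m, rfl⟩ := hEp
    obtain ⟨m', rfl⟩ := hFp
    exfalso
    apply hne
    rw [hE, hF] at hs
    simp at hs
    rw [hE, hF, hs]
  · obtain ⟨Xu, Yv, hu, hv, h1⟩ := exists_lf_ne _ X Y rfl hs hne hX hY
    refine ⟨Xu, Yv, mkMix hs hne hX hY hu hv h1 ?_ ?_ ?_⟩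
    · rintro ⟨h3, h4⟩
      by_cases hE : ∃ E, X = (pt.add E).add pt
      · refine not_h2_of hY hv ?_ h4
        intro F hF _
        exact hC ⟨hE, F, hF⟩
      · refine not_h2_of hX hu ?_ h3
        intro E hE' _
        exact hE ⟨E, hE'⟩
    · intro X1 hX1 h2 _
      exact (hA ⟨X1, hX1, h2⟩).elim
    · intro Y1 hY1 h2 _
      exact (hB ⟨Y1, hY1, h2⟩).elim

/-! ### `Y` a path -/

/-- `X` is a path with a pendant vertex -/
def Sp (X : RT) : Prop := ∃ i j, X = chain i ((pt.add (path j)).add pt)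

theorem chain_succ (i : ℕ) (Z : RT) : chain (i + 1) Z = pt.add (chain i Z) := rfl

theorem chain_succ' (i : ℕ) (Z : RT) : chain (i + 1) Z = chain i (pt.add Z) := by
  induction i with
  | zero => rfl
  | succ i ih => rw [chain_succ, ih]; rfl

theorem chain_inj {i : ℕ} {Z Z' : RT} (h : chain i Z = chain i Z') : Z = Z' := by
  induction i with
  | zero => exact h
  | succ i ih =>
    rw [chain_succ, chain_succ] at h
    exact ih (by simpa using h)

theorem chain_eq_path {i : ℕ} {Z : RT} {m : ℕ} (h : chain i Z = path m) : ∃ m', Z = path m' := by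
  induction i generalizing m with
  | zero => exact ⟨m, h⟩
  | succ i ih =>
    rw [chain_succ] at h
    obtain ⟨_, m', _, h'⟩ := path_eq_add h.symm
    exact ih h'

theorem chain_path (i m : ℕ) : chain i (path m) = path (i + m) := by
  induction i with
  | zero => rw [Nat.zero_add]; rfl
  | succ i ih => rw [chain_succ, ih, Nat.add_right_comm]; rfl

theorem Gr.chain {D A A' : RT} (h : Gr D A A') (i : ℕ) :
    Gr D (Drn.chain i A) (Drn.chain i A') := by
  induction i with
  | zero => exact h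
  | succ i ih => exact ih.right pt

theorem lf_path_cases : ∀ (k : ℕ) (X : RT), Lf (path k) X → X = path (k + 1) ∨ Sp X := by
  intro k
  induction k with
  | zero =>
    intro X h
    left
    exact gr_pt_iff.1 h
  | succ k ih =>
    intro X h
    rcases gr_add_iff.1 h with ⟨A', h1, rfl⟩ | ⟨B', h1, rfl⟩
    · rw [gr_pt_iff] at h1
      subst h1
      right
      exact ⟨0, k, add_swap _ _ _⟩
    · rcases ih B' h1 with rfl | ⟨i, j, rfl⟩
      · left; rfl
      · right; exact ⟨i + 1, j, rfl⟩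

theorem choice_core {E C D : RT} (hSp : ∀ j, (E.add C).add D ≠ (pt.add (path j)).add pt) :
    ∃ Zu, Lf Zu ((E.add C).add D) ∧ ¬ Lf ((E.add C).add D) ((pt.add Zu).add pt) ∧
      ∀ m, Zu ≠ path m := by
  have hZ2 : 2 ≤ ((E.add C).add D).size := by
    have := E.size_pos; have := C.size_pos; have := D.size_pos
    simp; omega
  have hcard : 2 ≤ Multiset.card ((E.add C).add D).kids := by simp
  have hnp : ∀ Zu, Lf Zu ((E.add C).add D) →
      (∀ j, (E.add C).add D ≠ (pt.add (path j)).add pt) → ∀ m, Zu ≠ path m := by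
    rintro Zu hZu hSp m rfl
    rcases lf_path_cases m _ hZu with h | ⟨i, j, h⟩
    · rw [h, path_succ] at hcard; simp at hcard
    · cases i with
      | zero => exact hSp j h
      | succ i => rw [h, chain_succ] at hcard; simp at hcard
  generalize (E.add C).add D = Z at *
  by_cases hf : ∃ E', Z = (pt.add E').add pt
  · obtain ⟨E', rfl⟩ := hf
    refine ⟨pt.add E', Gr.root _, ?_, hnp _ (Gr.root _) hSp⟩
    intro h
    rcases gr_to_add_iff.1 h with ⟨A', h1, h2⟩ | ⟨B', h1, h2⟩ | ⟨_, h2⟩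
    · simp at h2
      subst h2
      obtain ⟨m, hm⟩ := path_of_lf h1
      obtain ⟨_, m', _, h3⟩ := path_eq_add hm.symm
      exact hSp m' (by rw [h3])
    · exact not_gr_pt h1
    · have := congrArg (fun A => Multiset.card (kids A)) h2
      simp at this
  · obtain ⟨Zu, hZu⟩ := exists_lf hZ2
    refine ⟨Zu, hZu, ?_, hnp _ hZu hSp⟩
    intro h
    rcases gr_to_add_iff.1 h with ⟨A', h1, h2⟩ | ⟨B', h1, h2⟩ | ⟨_, h2⟩
    · rcases lf_to_pt_add h1 with ⟨B', h3, rfl⟩ | ⟨rfl, rfl⟩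
      · exact hf ⟨B', h2⟩
      · rw [h2] at hcard; simp at hcard
    · exact not_gr_pt h1
    · rw [h2] at hcard; simp at hcard

theorem no_common {Z Zu : RT} (hcard : 2 ≤ Multiset.card Z.kids)
    (h : ¬ Lf Z ((pt.add Zu).add pt)) :
    ∀ (i : ℕ) (Q : RT), Lf (chain i Z) Q → Lf (chain (i + 1) Zu) Q → False := by
  intro i
  induction i with
  | zero =>
    intro Q h1 h2
    have h1' : Lf Z Q := h1
    rcases gr_add_iff.1 h2 with ⟨A', h3, rfl⟩ | ⟨B', h3, rfl⟩
    · rw [gr_pt_iff] at h3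
      subst h3
      rw [add_swap] at h1'
      exact h h1'
    · rcases lf_to_pt_add h1' with ⟨Z', _, rfl⟩ | ⟨_, rfl⟩
      · simp at hcard
      · simp at hcard
  | succ i ih =>
    intro Q h1 h2
    rcases gr_add_iff.1 h1 with ⟨A', h3, rfl⟩ | ⟨A', h3, rfl⟩ <;>
      rcases gr_add_iff.1 h2 with ⟨B', h4, h5⟩ | ⟨B', h4, h5⟩
    · rw [gr_pt_iff] at h3 h4
      subst h3 h4
      have h6 : chain i Z = chain (i + 1) Zu := by simpa using h5
      rw [chain_succ'] at h6
      have := chain_inj h6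
      rw [this] at hcard
      simp at hcard
    · rw [gr_pt_iff] at h3
      subst h3
      have := congrArg (fun A => Multiset.card (kids A)) h5
      simp at this
    · rw [gr_pt_iff] at h4
      subst h4
      have := congrArg (fun A => Multiset.card (kids A)) h5
      simp at this
    · have h6 : A' = B' := by simpa using h5
      subst h6
      exact ih A' h3 h4

theorem exists_mix_path {X : RT} {k : ℕ} (hs : X.size = k + 2) (hX : ∀ m, X ≠ path m)
    (hSp : ¬ Sp X) : ∃ Xu Yv, Mix X (path (k + 1)) Xu Yv := by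
  rcases eq_path_or X with ⟨m, hm⟩ | ⟨i, E, C, D, hXc⟩
  · exact absurd hm (hX m)
  obtain ⟨Zu, hZu, hZ2, hZ3⟩ := choice_core (E := E) (C := C) (D := D)
    (fun j hj => hSp ⟨i, j, by rw [hXc, hj]⟩)
  have hcard : 2 ≤ Multiset.card ((E.add C).add D).kids := by simp
  have hXu : Lf (chain i Zu) X := by rw [hXc]; exact hZu.chain i
  refine ⟨chain i Zu, path k, ?_⟩
  refine ⟨by simp [hs], fun h => hX _ h, hXu, lf_path_succ k, ?_, ?_, ?_, ?_, ?_, ?_, ?_⟩
  · intro h
    obtain ⟨m', hm'⟩ := chain_eq_path h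
    exact hZ3 m' hm'
  · rintro ⟨h, _⟩
    cases i with
    | zero =>
      have h' : X = (E.add C).add D := hXc
      rw [h'] at h
      exact hZ2 h
    | succ i =>
      refine not_h2_of hX hXu ?_ h
      intro E' hE' _
      rw [hXc, chain_succ] at hE'
      have := congrArg (fun A => Multiset.card (kids A)) hE'
      simp at this
  · intro X1 Q h1 _ h3 h4
    cases i with
    | zero =>
      have h' : X = (E.add C).add D := hXc
      rw [h1] at h'
      have := congrArg (fun A => Multiset.card (kids A)) h'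
      simp at this
    | succ i =>
      have h' : X1 = chain i ((E.add C).add D) := by
        rw [h1, chain_succ] at hXc
        simpa using hXc
      subst h'
      exact no_common hcard hZ2 i Q h3 h4
  · intro Y1 Q _ h _ _
    exact nonpath_aux hX hXu h
  · intro X1 h1 h2 _
    exfalso
    have := lf_path h2
    exact hX (k + 1) (by rw [h1, this]; rfl)
  · intro Y1 h1 h2 _
    exfalso
    have h3 : Y1 = path k := by
      rw [path_succ] at h1
      simpa using h1.symm
    subst h3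
    rcases lf_path_cases k X h2 with h | h
    · exact hX _ h
    · exact hSp h
  · intro X1 Y1 h1 _ h2 _
    exact nonpath_aux2 hX hXu h1 h2

end Pool.Agent.H48.Drn
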