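import Mathlib

/-! Rooted tree types `RT` (finite rooted trees up to isomorphism), as hereditary multisets. -/

set_option autoImplicit false

namespace Pool.Agent.Drn

open Denumerable

theorem sum_add_length_le_encode : ∀ l : List ℕ, l.sum + l.length ≤ Encodable.encode l
  | [] => by simp
  | a :: l => by
      have ih := sum_add_length_le_encode l
      have h : Encodable.encode (a :: l) = Nat.succ (Nat.pair a (Encodable.encode l)) := rfl
      have h2 := Nat.add_le_pair a (Encodable.encode l)
      rw [h]
      simp only [List.sum_cons, List.length_cons]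
      omega

theorem mem_raise_le : ∀ (l : List ℕ) (n a : ℕ), a ∈ raise l n → a ≤ n + l.sum
  | [], n, a, h => by simp [raise] at h
  | m :: l, n, a, h => by
      simp only [raise, List.mem_cons] at h
      rcases h with rfl | h
      · simp only [List.sum_cons]; omega
      · have := mem_raise_le l (m + n) a h
        simp only [List.sum_cons]; omega

/-- bijection between `ℕ` and `Multiset ℕ` such that the elements of the multiset are smaller. -/
noncomputable def dec : ℕ ≃ Multiset ℕ := (Denumerable.eqv (Multiset ℕ)).symm

theorem dec_apply (n : ℕ) : dec n = (raise (ofNat (List ℕ) n) 0 : Multiset ℕ) := by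
  have : dec n = Multiset.map (ofNat ℕ) (raise (ofNat (List ℕ) n) 0 : Multiset ℕ) := rfl
  rw [this]
  simp

theorem dec_lt {n a : ℕ} (h : a ∈ dec n) : a < n := by
  rw [dec_apply] at h
  have h1 : a ∈ raise (ofNat (List ℕ) n) 0 := by simpa using h
  have h2 := mem_raise_le _ _ _ h1
  have h3 := sum_add_length_le_encode (ofNat (List ℕ) n)
  have h4 : Encodable.encode (ofNat (List ℕ) n) = n := encode_ofNat n
  rw [h4] at h3
  have h5 : 0 < (ofNat (List ℕ) n).length := by
    rcases hl : ofNat (List ℕ) n with _ | ⟨b, l⟩
    · rw [hl] at h1; simp [raise] at h1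
    · simp
  omega

/-- Rooted tree types. -/
@[ext] structure RT where
  code : ℕ

instance : DecidableEq RT := fun a b => decidable_of_iff (a.code = b.code) (by
  constructor
  · intro h; exact RT.ext h
  · rintro rfl; rfl)

namespace RT

/-- the multiset of children (branches at the root). -/
noncomputable def ch (A : RT) : Multiset RT := (dec A.code).map RT.mk

/-- build a rooted tree from the multiset of its branches. -/
noncomputable def node (s : Multiset RT) : RT := ⟨dec.symm (s.map RT.code)⟩

@[simp] theorem ch_node (s : Multiset RT) : (node s).ch = s := by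
  simp [node, ch]

@[simp] theorem node_ch (A : RT) : node A.ch = A := by
  apply RT.ext
  simp [node, ch]

theorem node_injective : Function.Injective node := fun a b h => by
  rw [← ch_node a, h, ch_node]

theorem ch_injective : Function.Injective ch := fun a b h => by
  rw [← node_ch a, h, node_ch]

@[simp] theorem node_inj {s t : Multiset RT} : node s = node t ↔ s = t := node_injective.eq_iff
@[simp] theorem ch_inj {A B : RT} : A.ch = B.ch ↔ A = B := ch_injective.eq_iff

theorem code_lt_of_mem {A B : RT} (h : A ∈ B.ch) : A.code < B.code := by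
  unfold ch at h
  rw [Multiset.mem_map] at h
  obtain ⟨a, ha, rfl⟩ := h
  exact dec_lt ha

theorem indCh {P : RT → Prop} (h : ∀ A, (∀ B ∈ A.ch, P B) → P A) : ∀ A, P A := by
  intro A
  generalize hn : A.code = n
  induction n using Nat.strong_induction_on generalizing A with
  | _ n ih =>
    apply h
    intro B hB
    exact ih B.code (hn ▸ code_lt_of_mem hB) B rfl

/-- number of vertices -/
noncomputable def size (A : RT) : ℕ := 1 + (A.ch.attach.map (fun B => size B.1)).sum
termination_by A.code
decreasing_by exact code_lt_of_mem B.2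

theorem size_eq (A : RT) : A.size = 1 + (A.ch.map size).sum := by
  rw [size]
  congr 1
  conv_rhs => rw [← Multiset.attach_map_val A.ch]
  rw [Multiset.map_map]
  rfl

@[simp] theorem size_node (s : Multiset RT) : (node s).size = 1 + (s.map size).sum := by
  rw [size_eq, ch_node]

theorem size_pos (A : RT) : 0 < A.size := by rw [size_eq]; omega

/-- the one-vertex tree -/
noncomputable def pt : RT := node 0

@[simp] theorem ch_pt : pt.ch = 0 := ch_node 0
@[simp] theorem size_pt : pt.size = 1 := by simp [pt]

/-- `A.add B`: add `B` as a new branch at the root of `A`. -/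
noncomputable def add (A B : RT) : RT := node (B ::ₘ A.ch)

@[simp] theorem ch_add (A B : RT) : (A.add B).ch = B ::ₘ A.ch := ch_node _
@[simp] theorem size_add (A B : RT) : (A.add B).size = A.size + B.size := by
  rw [add, size_node, size_eq A]; simp; omega

theorem add_right_comm (A B C : RT) : (A.add B).add C = (A.add C).add B := by
  rw [← ch_inj]; simp [Multiset.cons_swap]

theorem add_eq_add_iff {A B C D : RT} :
    A.add B = C.add D ↔ (A = C ∧ B = D) ∨ ∃ E : RT, A = E.add D ∧ C = E.add B := by
  rw [← ch_inj, ch_add, ch_add, Multiset.cons_eq_cons]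
  constructor
  · rintro (⟨h1, h2⟩ | ⟨h, cs, h1, h2⟩)
    · exact Or.inl ⟨ch_inj.1 h2, h1⟩
    · refine Or.inr ⟨node cs, ?_, ?_⟩
      · rw [← ch_inj, h1]; simp
      · rw [← ch_inj, h2]; simp
  · rintro (⟨rfl, rfl⟩ | ⟨E, rfl, rfl⟩)
    · exact Or.inl ⟨rfl, rfl⟩
    · by_cases h : B = D
      · subst h; exact Or.inl ⟨rfl, rfl⟩
      · exact Or.inr ⟨h, E.ch, by simp, by simp⟩

@[simp] theorem add_left_inj {A C B : RT} : A.add B = C.add B ↔ A = C := by
  rw [← ch_inj]; simp

@[simp] theorem add_right_inj {A B D : RT} : A.add B = A.add D ↔ B = D := by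
  rw [← ch_inj]; simp

theorem add_ne_pt {A B : RT} : A.add B ≠ pt := by
  intro h
  have := congrArg size h
  simp at this
  have := A.size_pos
  have := B.size_pos
  omega

theorem exists_add_of_mem {A B : RT} (h : B ∈ A.ch) : ∃ C : RT, A = C.add B := by
  obtain ⟨t, ht⟩ := Multiset.exists_cons_of_mem h
  exact ⟨node t, by rw [← ch_inj, ht]; simp⟩

@[simp] theorem mem_ch_add {A B C : RT} : C ∈ (A.add B).ch ↔ C = B ∨ C ∈ A.ch := by simp

/-- binary induction principle -/
theorem indAdd {P : RT → Prop} (h0 : P pt) (h1 : ∀ A B : RT, P A → P B → P (A.add B)) : ∀ A, P A := by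
  intro A
  generalize hn : A.size = n
  induction n using Nat.strong_induction_on generalizing A with
  | _ n ih =>
    by_cases h : A.ch = 0
    · have : A = pt := by rw [← ch_inj, h]; simp
      rw [this]; exact h0
    · obtain ⟨B, hB⟩ := Multiset.exists_mem_of_ne_zero h
      obtain ⟨C, rfl⟩ := exists_add_of_mem hB
      have h2 := C.size_pos
      have h3 := B.size_pos
      rw [size_add] at hn
      exact h1 _ _ (ih C.size (by omega) C rfl) (ih B.size (by omega) B rfl)

theorem eq_pt_or (A : RT) : A = pt ∨ ∃ B C : RT, A = B.add C := by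
  induction A using indAdd with
  | h0 => exact Or.inl rfl
  | h1 A B _ _ => exact Or.inr ⟨A, B, rfl⟩

theorem size_eq_one {A : RT} (h : A.size = 1) : A = pt := by
  rcases A.eq_pt_or with h1 | ⟨B, C, rfl⟩
  · exact h1
  · have := B.size_pos
    have := C.size_pos
    rw [size_add] at h; omega

theorem size_lt_of_mem {A B : RT} (h : A ∈ B.ch) : A.size < B.size := by
  obtain ⟨C, rfl⟩ := exists_add_of_mem h
  have := C.size_pos
  rw [size_add]; omega

end RT

end Pool.Agent.Drn
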