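import Pool.Agent.H91.Drn.Code

/-! Definitions for the degree-associated reconstruction number of trees (MP_b148a6_co, S10859).
Everything here is about rooted tree types `RT`. -/

set_option autoImplicit false

namespace Pool.Agent.Drn

open RT

/-- `Att D W L`: `L` is `W` with `D` attached as a new branch at some vertex of `W`. -/
inductive Att (D : RT) : RT → RT → Prop
  | root (A : RT) : Att D A (A.add D)
  | child (A : RT) {B B' : RT} : Att D B B' → Att D (A.add B) (A.add B')

/-- `Lf A B`: `A` is obtained from `B` by deleting a (non-root) leaf. -/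
abbrev Lf : RT → RT → Prop := Att pt

/-- moving the root to a neighbour. -/
def Move (A B : RT) : Prop := ∃ P Q : RT, A = P.add Q ∧ B = Q.add P

/-- `Rer A B`: `A` and `B` are two rootings of the same free tree. -/
def Rer : RT → RT → Prop := Relation.ReflTransGen Move

theorem Move.symm {A B : RT} (h : Move A B) : Move B A := by
  obtain ⟨P, Q, h1, h2⟩ := h
  exact ⟨Q, P, h2, h1⟩

theorem Rer.refl (A : RT) : Rer A A := Relation.ReflTransGen.refl

theorem Rer.symm {A B : RT} (h : Rer A B) : Rer B A := by
  induction h with
  | refl => exact Relation.ReflTransGen.refl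
  | tail _ h2 ih => exact Relation.ReflTransGen.head h2.symm ih

theorem Rer.trans {A B C : RT} (h1 : Rer A B) (h2 : Rer B C) : Rer A C :=
  Relation.ReflTransGen.trans h1 h2

def rerSetoid : Setoid RT := ⟨Rer, ⟨Rer.refl, Rer.symm, Rer.trans⟩⟩

/-- free tree types -/
def FT : Type := Quotient rerSetoid

/-- the free tree type of a rooted tree type -/
def fr (A : RT) : FT := Quotient.mk rerSetoid A

theorem fr_eq_iff {A B : RT} : fr A = fr B ↔ Rer A B :=
  ⟨fun h => Quotient.exact h, fun h => Quotient.sound h⟩

theorem fr_add_comm (A B : RT) : fr (A.add B) = fr (B.add A) :=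
  fr_eq_iff.2 (Relation.ReflTransGen.single ⟨A, B, rfl, rfl⟩)

theorem Move.size {A B : RT} (h : Move A B) : A.size = B.size := by
  obtain ⟨P, Q, rfl, rfl⟩ := h
  simp [Nat.add_comm]

theorem Rer.size {A B : RT} (h : Rer A B) : A.size = B.size := by
  induction h with
  | refl => rfl
  | tail _ h2 ih => rw [ih, h2.size]

/-- number of vertices of a free tree type -/
noncomputable def fsize : FT → ℕ := Quotient.lift RT.size (fun _ _ h => Rer.size h)

@[simp] theorem fsize_fr (A : RT) : fsize (fr A) = A.size := rfl

theorem size_of_fr {A B : RT} (h : fr A = fr B) : A.size = B.size := by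
  rw [← fsize_fr, h, fsize_fr]

/-- The card of a tree at the vertex where its code is `A`: the multiset of free types of
the components after deletion of the vertex (the degree is its cardinality). -/
noncomputable def cards (A : RT) : Multiset FT := A.ch.map fr

@[simp] theorem cards_pt : cards pt = 0 := by simp [cards]
@[simp] theorem cards_add (A B : RT) : cards (A.add B) = fr B ::ₘ cards A := by simp [cards]

/-- balanced: every branch has at most half of the vertices -/
def Bal (A : RT) : Prop := ∀ B ∈ A.ch, 2 * B.size ≤ A.size
/-- strictly balanced -/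
def SBal (A : RT) : Prop := ∀ B ∈ A.ch, 2 * B.size < A.size

/-- a tree is determined by its cards at two vertices with codes `Ra`, `Rb`
(among trees; for the disconnected competitors see `Disj`). -/
def Det (Ra Rb : RT) : Prop :=
  ∀ S S' : RT, fr S = fr S' → cards S = cards Ra → cards S' = cards Rb → fr S = fr Ra

/-- no component of `T - a` has the same size as a component of `T - b`. -/
def Disj (Ra Rb : RT) : Prop := ∀ A ∈ Ra.ch, ∀ B ∈ Rb.ch, A.size ≠ B.size

/-- the rooted-tree-level goal: the free tree of `R` has a determining pair of vertices. -/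
def Good (R : RT) : Prop :=
  ∃ Ra Rb : RT, fr Ra = fr R ∧ fr Rb = fr R ∧ Det Ra Rb ∧
    (Disj Ra Rb ∨ Multiset.card Ra.ch = 1 ∨ Multiset.card Rb.ch = 1)

/-- position: a tree `P.add B` (root `r`, branch `B` at the child `b`), rerooted at a vertex `y` of `B`,
has code `D.add K`, where `K` is the branch at `y` that contains `r` and `D` is the rest. -/
inductive PosD : RT → RT → RT → RT → Prop
  | here (P B : RT) : PosD P B B P
  | deeper {P X C D K : RT} : PosD (X.add P) C D K → PosD P (X.add C) D K

/-- the class of rooted trees in which, hereditarily, all branches at a vertex have the same size. -/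
inductive EQ : RT → Prop
  | mk (A : RT) (h1 : ∀ B ∈ A.ch, ∀ C ∈ A.ch, B.size = C.size) (h2 : ∀ B ∈ A.ch, EQ B) : EQ A

/-- paths rooted at an end vertex, `path n` has `n+1` vertices -/
noncomputable def path : ℕ → RT
  | 0 => pt
  | n + 1 => pt.add (path n)

/-- `chain i Z`: a path with `i` vertices, the last of them joined to the root of `Z`; rooted at
the far end. -/
noncomputable def chain : ℕ → RT → RT
  | 0, Z => Z
  | i + 1, Z => pt.add (chain i Z)

/-- `(Ru, Rv)` is a good pair of leaf deletions of `R` at the rooted level. -/
def R1 (R Ru Rv : RT) : Prop :=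
  Lf Ru R ∧ Lf Rv R ∧ Ru ≠ Rv ∧ ∀ S : RT, Lf Ru S → Lf Rv S → S = R

end Pool.Agent.Drn
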