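import Pool.Agent.H91.Drn.Choice

/-! The cases `X -- X` and `⟨X, X⟩` when `X` has a good pair of leaves. -/

set_option autoImplicit false

namespace Pool.Agent.H48.Drn

open RT

/-- n odd -/
theorem good_N2a_same {X Xu Xv : RT} (hR : R1 X Xu Xv) (hX : ∀ m, X ≠ path m) (hs : 2 ≤ X.size) :
    Good ((pt.add X).add X) := by
  obtain ⟨hu, hv, hne, hR⟩ := hR
  have e1 := Lf.size hu
  have e2 := Lf.size hv
  refine good_of_leaf (Ru := (pt.add Xu).add X) (Rv := (pt.add Xv).add X)
    ((hu.right pt).left X) ((hv.right pt).left X) ?_ ?_
  · intro h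
    simp at h
    exact hne h
  · intro S S' hS hSu hSv
    obtain ⟨S1, q1, q2, q3⟩ := n2a_form rfl hu hSu
    obtain ⟨S2, q4, q5, q6⟩ := n2a_form rfl hv hSv
    have q7 : S1 = S2 := q2.eq q5.bal (by rw [q1, q4, hS])
    subst q7
    rw [← q1]
    have key13 : ∀ (Xu Xv Xt Xp : RT), Lf Xv X → Lf Xu Xt → Lf X Xp →
        (pt.add Xt).add X = Xp.add (pt.add Xv) → False := by
      intro Xu Xv Xt Xp hv hXt hXp h
      have e2 := Lf.size hv
      rcases add_eq_add_iff.1 h with ⟨_, h4⟩ | ⟨E, h3, h4⟩
      · exact nonpath_aux hX hv h4
      · obtain ⟨rfl, rfl⟩ := pt_add_eq_add h3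
        subst h4
        obtain ⟨X1, hX1, rfl⟩ := lf_to_pt_add' hXp (by omega)
        obtain ⟨m, rfl⟩ := path_of_lf hX1
        exact hX (m + 1) rfl
    have key23 : ∀ (Xu Xv Xp : RT), Lf Xu X → Lf Xv X →
        ((pt.add Xu).add pt).add X = Xp.add (pt.add Xv) → False := by
      intro Xu Xv Xp hu hv h
      have e1 := Lf.size hu
      have e2 := Lf.size hv
      rcases add_eq_add_iff.1 h with ⟨_, h4⟩ | ⟨E, h3, h4⟩
      · exact nonpath_aux hX hv h4
      · have e6 := congrArg RT.size h3
        simp at e6
        have hE : E = pt := eq_pt_of_size (by omega)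
        subst hE
        have := congrArg (fun A => Multiset.card (kids A)) h3
        simp at this
    rcases q3 with ⟨Xt, hXt, rfl⟩ | rfl | ⟨Yp, hYp, rfl⟩ <;>
      rcases q6 with ⟨Yt, hYt, h⟩ | h | ⟨Xp, hXp, h⟩
    · have h' : Xt = Yt := by simpa using h
      subst h'
      rw [hR _ hXt hYt]
    · have := congrArg (fun A => Multiset.card (kids A)) h
      simp at this
    · exact (key13 _ _ _ _ hv hXt hXp h).elim
    · have := congrArg (fun A => Multiset.card (kids A)) h
      simp at this
    · exact absurd (by simpa using h) hne
    · exact (key23 _ _ _ hu hv h).elim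
    · exact (key13 _ _ _ _ hu hYt hYp h.symm).elim
    · exact (key23 _ _ _ hv hu h.symm).elim
    · exfalso
      rcases add_eq_add_iff.1 h with ⟨h3, h4⟩ | ⟨E, h3, h4⟩
      · exact hne (by simpa using h4)
      · have e4 := Lf.size hYp
        have e6 := congrArg RT.size h3
        simp at e6
        have hE : E = pt := eq_pt_of_size (by omega)
        subst hE
        subst h3
        obtain ⟨Y1, hY1, hX1⟩ := lf_to_pt_add' hYp (by simp; omega)
        exact nonpath_aux2 hX hv hX1 hY1

theorem bal_N1 {X Y Xu S : RT} (hs : X.size = Y.size) (hu : Lf Xu X) (h : Lf (Y.add Xu) S) :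
    Bal S := by
  have e1 := Lf.size hu
  rcases gr_add_iff.1 h with ⟨Yp, hYp, rfl⟩ | ⟨Xt, hXt, rfl⟩
  · have := Lf.size hYp
    intro B hB
    rw [mem_kids_add] at hB
    simp
    rcases hB with rfl | hB
    · omega
    · have := size_lt_of_mem' hB
      omega
  · have := Lf.size hXt
    intro B hB
    rw [mem_kids_add] at hB
    simp
    rcases hB with rfl | hB
    · omega
    · have := size_lt_of_mem' hB
      omega

/-- n even -/
theorem good_N1_same {X Xu Xv : RT} (hR : R1 X Xu Xv) (hX : ∀ m, X ≠ path m) (hs : 3 ≤ X.size)
    (h2 : ¬ (Lf X ((pt.add Xu).add pt) ∧ Lf X ((pt.add Xv).add pt))) : Good (X.add X) := by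
  obtain ⟨hu, hv, hne, hR⟩ := hR
  have e1 := Lf.size hu
  have e2 := Lf.size hv
  refine good_of_leaf (Ru := X.add Xu) (Rv := X.add Xv) (hu.right X) (hv.right X) ?_ ?_
  · intro h
    simp at h
    exact hne h
  · intro S S' hS hSu hSv
    have b1 : Bal S := bal_N1 rfl hu hSu
    have b2 : Bal S' := bal_N1 rfl hv hSv
    rcases b1.eq_or b2 hS with q3 | ⟨P, Q, q3, q4, q5⟩
    · subst q3
      rcases gr_add_iff.1 hSu with ⟨Yp, hYp, rfl⟩ | ⟨Xt, hXt, rfl⟩ <;>
        rcases gr_add_iff.1 hSv with ⟨Xp, hXp, h⟩ | ⟨Yt, hYt, h⟩
      · exfalso
        have e4 := Lf.size hYp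
        rcases add_eq_add_iff.1 h with ⟨h3, h4⟩ | ⟨E, h3, h4⟩
        · exact hne h4
        · have e6 := congrArg RT.size h3
          simp at e6
          obtain rfl | ⟨F, G, rfl⟩ := E.eq_pt_or
          · simp at e6; omega
          · simp at e6
            have := F.size_pos
            have := G.size_pos
            have hF : F = pt := eq_pt_of_size (by omega)
            have hG : G = pt := eq_pt_of_size (by omega)
            subst hF hG h3 h4
            rw [add_swap] at hXp hYp
            exact h2 ⟨hXp, hYp⟩
      · exfalso
        have e4 := Lf.size hYp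
        have e5 := Lf.size hYt
        rcases add_eq_add_iff.1 h with ⟨h3, h4⟩ | ⟨E, h3, h4⟩
        · have := congrArg RT.size h4
          omega
        · have e6 := congrArg RT.size h3
          simp at e6
          have hE : E = pt := eq_pt_of_size (by omega)
          subst hE h3
          exact nonpath_aux hX hu h4
      · exfalso
        have e4 := Lf.size hXt
        have e5 := Lf.size hXp
        rcases add_eq_add_iff.1 h with ⟨h3, h4⟩ | ⟨E, h3, h4⟩
        · have := congrArg RT.size h4
          omega
        · have e6 := congrArg RT.size h3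
          simp at e6
          have hE : E = pt := eq_pt_of_size (by omega)
          subst hE h4
          exact nonpath_aux hX hv h3
      · have h' : Xt = Yt := by simpa using h
        subst h'
        rw [hR _ hXt hYt]
    · have q6 := congrArg RT.size q4
      rcases gr_add_iff.1 hSu with ⟨Yp, hYp, h⟩ | ⟨Xt, hXt, h⟩ <;>
        rcases gr_add_iff.1 hSv with ⟨Xp, hXp, h'⟩ | ⟨Yt, hYt, h'⟩
      · exfalso
        have e4 := Lf.size hYp
        have e5 := Lf.size hXp
        rw [h] at q4 q6
        rw [h'] at q5
        simp at q6
        rcases add_eq_add_iff.1 q4 with ⟨h3, h4⟩ | ⟨E, h3, h4⟩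
        · have := congrArg RT.size h4
          omega
        · have e6 := congrArg RT.size h3
          simp at e6
          have hE : E = pt := eq_pt_of_size (by omega)
          subst hE
          rcases add_eq_add_iff.1 q5 with ⟨h5, h6⟩ | ⟨E, h5, h6⟩
          · have := congrArg RT.size h6
            omega
          · have e7 := congrArg RT.size h5
            simp at e7
            have hE : E = pt := eq_pt_of_size (by omega)
            subst hE
            subst h3 h5
            subst h4 h6
            obtain ⟨X1, hX1, hX1'⟩ := lf_to_pt_add' hXp (by omega)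
            exact nonpath_aux2 hX hu hX1' hX1
      · have e4 := Lf.size hYp
        have e5 := Lf.size hYt
        rw [h] at q4 q6
        rw [h'] at q5
        simp at q6
        exfalso
        rcases add_eq_add_iff.1 q4 with ⟨h3, h4⟩ | ⟨E, h3, h4⟩
        · have := congrArg RT.size h4
          omega
        · have e6 := congrArg RT.size h3
          simp at e6
          have hE : E = pt := eq_pt_of_size (by omega)
          subst hE
          rcases add_eq_add_iff.1 q5 with ⟨h5, h6⟩ | ⟨E, h5, h6⟩
          · subst h3 h4 h5 h6
            obtain ⟨m, hm⟩ := path_of_lf hYp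
            exact hX m hm
          · have e7 := congrArg RT.size h5
            simp at e7
            have := E.size_pos
            omega
      · have e4 := Lf.size hXt
        have e5 := Lf.size hXp
        rw [h] at q4 q6
        rw [h'] at q5
        simp at q6
        exfalso
        rcases add_eq_add_iff.1 q5 with ⟨h3, h4⟩ | ⟨E, h3, h4⟩
        · have := congrArg RT.size h4
          omega
        · have e6 := congrArg RT.size h3
          simp at e6
          have hE : E = pt := eq_pt_of_size (by omega)
          subst hE
          rcases add_eq_add_iff.1 q4 with ⟨h5, h6⟩ | ⟨E, h5, h6⟩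
          · subst h3 h4 h5 h6
            obtain ⟨m, hm⟩ := path_of_lf hXp
            exact hX m hm
          · have e7 := congrArg RT.size h5
            simp at e7
            have := E.size_pos
            omega
      · have e4 := Lf.size hXt
        have e5 := Lf.size hYt
        rw [h] at q4 q6
        rw [h'] at q5
        simp at q6
        rcases add_eq_add_iff.1 q4 with ⟨h3, h4⟩ | ⟨E, h3, h4⟩
        · rcases add_eq_add_iff.1 q5 with ⟨h5, h6⟩ | ⟨E, h5, h6⟩
          · subst h3 h4 h5
            rw [h]
          · have e7 := congrArg RT.size h5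
            simp at e7
            have := E.size_pos
            omega
        · have e7 := congrArg RT.size h3
          simp at e7
          have := E.size_pos
          omega

end Pool.Agent.H48.Drn
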