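import Pool.Agent.H91.Drn.N2b
import Pool.Agent.H48.Drn.KLem
import Pool.Agent.H48.Drn.Cat
import Pool.Agent.H48.Drn.Delta

/-! Assembly: every balanced code of size at least `N` is good. -/

set_option autoImplicit false

namespace Pool.Agent.H48.Drn

open RT


/-- delta pair for a tree `X.add Y` with the leaf `v` in a smaller branch of `X` -/
theorem delta' {X Y Yu Xv : RT} (hYu : Lf Yu Y) (hXv : Lf Xv X)
    (hX : ∀ B ∈ X.kids, B.size + 2 ≤ Y.size) : R1 (X.add Y) (X.add Yu) (Xv.add Y) := by
  have hs := Lf.size hYu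
  rcases hXv.casesAdd with rfl | ⟨A, B, B', rfl, rfl, h⟩
  · rw [add_swap, add_swap Xv pt Yu]
    refine delta hYu ?_ ?_ (Or.inr ⟨rfl, rfl⟩)
    · have := hX pt (by simp); omega
    · intro h
      have := Lf.size h
      have := hX pt (by simp)
      omega
  · have h1 := hX B' (by simp)
    rw [add_swap A B' Y, add_swap A B' Yu, add_swap A B Y]
    refine delta hYu (by omega) ?_ (Or.inl ⟨B, h, rfl⟩)
    intro h
    have := Lf.size h
    omega

/-- leaf pair all of whose extensions stay balanced -/
theorem good_of_R1 {R Ru Rv : RT} (h0 : 3 ≤ R.size) (h : R1 R Ru Rv)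
    (hu : ∀ B ∈ Ru.kids, 2 * B.size + 3 ≤ R.size)
    (hv : ∀ B ∈ Rv.kids, 2 * B.size + 2 ≤ R.size) : Good R := by
  obtain ⟨h1, h2, h3, h4⟩ := h
  refine good_of_leaf h1 h2 h3 ?_
  intro S S' hS hSu hSv
  have s1 := Lf.size h1
  have s2 := Lf.size h2
  have s3 := Lf.size hSu
  have s4 := Lf.size hSv
  have b1 : SBal S := by
    intro B hB
    have := lf_kids_le' (m := (R.size - 3) / 2) hSu (fun B hB => by have := hu B hB; omega) B hB
    omega
  have b2 : Bal S' := by
    intro B hB
    have := lf_kids_le' (m := (R.size - 2) / 2) hSv (fun B hB => by have := hv B hB; omega) B hB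
    omega
  have e := b1.eq b2 hS
  subst e
  rw [h4 S hSu hSv]

theorem good_G {R : RT} (hR : ∀ B ∈ R.kids, 2 * B.size + 2 ≤ R.size) (hs : 7 ≤ R.size) :
    Good R := by
  by_cases hpt : pt ∈ R.kids
  · obtain ⟨M, rfl⟩ := exists_add_of_mem hpt
    refine good_PTC hR ?_
    simp at hs
    omega
  by_cases hbig : ∃ Y ∈ R.kids, 2 * Y.size + 2 = R.size
  · obtain ⟨Y, hY, hYs⟩ := hbig
    obtain ⟨X, rfl⟩ := exists_add_of_mem hY
    simp at hYs
    have hXpt : X ≠ pt := by
      rintro rfl
      simp at hYs
      have := Y.size_pos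
      omega
    rcases X.eq_pt_or with h | ⟨M, B, rfl⟩
    · exact absurd h hXpt
    have hB2 : 2 ≤ B.size := by
      by_contra hc
      exact hpt (by rw [eq_pt_of_size (A := B) (by have := B.size_pos; omega)]; simp)
    have hkid : ∀ C ∈ (M.add B).kids, C.size + 1 ≤ Y.size := by
      intro C hC
      obtain ⟨F, hF⟩ := exists_add_of_mem hC
      have h1 := hR C (by simp at hC; simp [hC])
      have h2 := congrArg RT.size hF
      simp at h1 h2 hYs
      rcases F.eq_pt_or with rfl | ⟨G, K, rfl⟩
      · simp at h2; omega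
      · have hK : 2 ≤ K.size := by
          by_contra hc
          apply hpt
          have : K ∈ (M.add B).kids := by rw [hF]; simp
          rw [eq_pt_of_size (A := K) (by have := K.size_pos; omega)] at this
          simp at this
          simp [this]
        have := G.size_pos
        simp at h2
        omega
    have hBY := hkid B (by simp)
    obtain ⟨B1, hB1⟩ := exists_lf hB2
    obtain ⟨Yu, hYu, hc⟩ : ∃ Yu, Lf Yu Y ∧ (Lf B Y → Yu = B) := by
      by_cases h : Lf B Y
      · exact ⟨B, h, fun _ => rfl⟩
      · obtain ⟨Yu, hYu⟩ := exists_lf (R := Y) (by omega)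
        exact ⟨Yu, hYu, fun h' => absurd h' h⟩
    rw [add_swap]
    have s1 := Lf.size hYu
    have s2 := Lf.size hB1
    simp at hYs
    refine good_of_R1 (by simp; omega) (delta (M := M) hYu (by omega) hc (Or.inl ⟨B1, hB1, rfl⟩)) ?_ ?_
    · intro C hC
      simp at hC ⊢
      rcases hC with rfl | rfl | hC
      · omega
      · omega
      · have := hkid C (by simp [hC]); omega
    · intro C hC
      simp at hC ⊢
      rcases hC with rfl | rfl | hC
      · omega
      · omega
      · have := hkid C (by simp [hC]); omega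
  · push Not at hbig
    have hR3 : ∀ B ∈ R.kids, 2 * B.size + 3 ≤ R.size := by
      intro B hB
      have := hR B hB
      have := hbig B hB
      omega
    by_cases hE : EQ R
    · obtain ⟨_, h1, h2⟩ := hE
      rcases R.eq_pt_or with rfl | ⟨M, N, rfl⟩
      · simp at hs
      · refine good_E1' (fun A hA => h1 A (by simp [hA]) N (by simp)) ?_ (h2 N (by simp))
        have h3 := hR3 N (by simp)
        simp at h3
        rcases two_kids_or M with rfl | ⟨A, rfl⟩ | ⟨E, A, B, rfl⟩
        · simp at h3; omega
        · have := h1 A (by simp) N (by simp)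
          simp at h3
          omega
        · simp
    · obtain ⟨Ru, Rv, h⟩ := R1_of_not_EQ hE
      refine good_of_R1 (by omega) h ?_ ?_
      · intro B hB
        have := lf_kids_le (m := (R.size - 3) / 2) h.1
          (fun B hB => by have := hR3 B hB; omega) B hB
        omega
      · intro B hB
        have := lf_kids_le (m := (R.size - 3) / 2) h.2.1
          (fun B hB => by have := hR3 B hB; omega) B hB
        omega

theorem EQ_path (m : ℕ) : EQ (path m) := by
  induction m with
  | zero => exact EQ.mk _ (by simp [path]) (by simp [path])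
  | succ m ih =>
    refine EQ.mk _ ?_ ?_
    · intro B hB C hC
      simp [path] at hB hC
      rw [hB, hC]
    · intro B hB
      simp [path] at hB
      rw [hB]; exact ih

theorem ut_chain_path (i k : ℕ) (Z : RT) :
    ut ((chain i Z).add (path k)) = ut (Z.add (path (i + k))) := by
  induction i generalizing k with
  | zero => rw [Nat.zero_add]; rfl
  | succ i ih =>
    rw [chain_succ, add_swap, ut_add_comm, ← path_succ, ih]
    congr 3
    omega

theorem good_Sp {X : RT} (h : Sp X) (k : ℕ) : Good (X.add (path k)) := by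
  obtain ⟨i, j, rfl⟩ := h
  refine Good.congr (Cat.good_spider j (i + k)) ?_
  rw [ut_chain_path, add_swap]

theorem good_Sp' {X : RT} (h : Sp X) (k : ℕ) : Good ((pt.add X).add (path k)) := by
  obtain ⟨i, j, rfl⟩ := h
  exact good_Sp ⟨i + 1, j, rfl⟩ k

theorem good_N2a_path {X : RT} {k : ℕ} (hs : X.size = k + 2) (hX : ∀ m, X ≠ path m) :
    Good ((pt.add X).add (path (k + 1))) := by
  by_cases hSp : Sp X
  · exact good_Sp' hSp _
  · obtain ⟨Xu, Yv, m⟩ := exists_mix_path hs hX hSp
    exact m.good_N2a (by omega)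

theorem good_N1_path {X : RT} {k : ℕ} (hs : X.size = k + 2) (hX : ∀ m, X ≠ path m) (hk : 1 ≤ k) :
    Good (X.add (path (k + 1))) := by
  by_cases hSp : Sp X
  · exact good_Sp hSp _
  · obtain ⟨Xu, Yv, m⟩ := exists_mix_path hs hX hSp
    exact m.good_N1 (by omega)

theorem good_N2a_all {X Y : RT} (hs : X.size = Y.size) (h : 4 ≤ X.size) :
    Good ((pt.add X).add Y) := by
  by_cases hXY : X = Y
  · subst hXY
    by_cases hE : EQ X
    · exact good_E2' hE
    · obtain ⟨Xu, Xv, hR⟩ := R1_of_not_EQ hE
      exact good_N2a_same hR (fun m hm => hE (hm ▸ EQ_path m)) (by omega)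
  · by_cases hX : ∀ m, X ≠ path m
    · by_cases hY : ∀ m, Y ≠ path m
      · obtain ⟨Xu, Yv, m⟩ := exists_mix hs hXY hX hY h
        exact m.good_N2a (by omega)
      · push Not at hY
        obtain ⟨m, rfl⟩ := hY
        rw [size_path] at hs
        obtain ⟨k, rfl⟩ : ∃ k, m = k + 1 := ⟨m - 1, by omega⟩
        exact good_N2a_path (by omega) hX
    · push Not at hX
      obtain ⟨m, rfl⟩ := hX
      rw [size_path] at hs h
      have hY : ∀ m', Y ≠ path m' := by
        rintro m' rfl
        simp at hs
        exact hXY (by rw [hs])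
      obtain ⟨k, rfl⟩ : ∃ k, m = k + 1 := ⟨m - 1, by omega⟩
      rw [add_swap]
      exact good_N2a_path (by omega) hY

theorem good_N1_all {X Y : RT} (hs : X.size = Y.size) (h : 7 ≤ X.size) :
    Good (X.add Y) := by
  by_cases hXY : X = Y
  · subst hXY
    by_cases hE : EQ X
    · exact good_XX' hE h
    · have hnp : ∀ m, X ≠ path m := fun m hm => hE (hm ▸ EQ_path m)
      by_cases hf : ∃ E, X = (pt.add E).add pt
      · obtain ⟨E, rfl⟩ := hf
        simp at h
        by_cases hEp : ∀ m, E ≠ path m
        · obtain ⟨E1, hE1⟩ := exists_lf (R := E) (by omega)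
          have hR : R1 ((pt.add E).add pt) ((pt.add E1).add pt) (pt.add E) := by
            refine delta hE1 (by simp; omega) ?_ (Or.inr ⟨rfl, rfl⟩)
            intro h'
            have := Lf.size h'
            simp at this
            omega
          refine good_N1_same hR hnp (by simp; omega) ?_
          rintro ⟨_, h2⟩
          refine not_h2_of hnp (Gr.root _) ?_ h2
          intro E' hE' h3
          have : E' = E := by simpa using hE'.symm
          subst this
          obtain ⟨m, hm⟩ := path_of_lf h3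
          exact hEp m hm
        · push Not at hEp
          obtain ⟨m, rfl⟩ := hEp
          simp at h
          exact Cat.good_L6 (by omega)
      · obtain ⟨Xu, Xv, hR⟩ := R1_of_not_EQ hE
        refine good_N1_same hR hnp (by omega) ?_
        rintro ⟨h2, _⟩
        refine not_h2_of hnp hR.1 ?_ h2
        intro E hE' _
        exact hf ⟨E, hE'⟩
  · by_cases hX : ∀ m, X ≠ path m
    · by_cases hY : ∀ m, Y ≠ path m
      · obtain ⟨Xu, Yv, m⟩ := exists_mix hs hXY hX hY (by omega)
        exact m.good_N1 (by omega)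
      · push Not at hY
        obtain ⟨m, rfl⟩ := hY
        rw [size_path] at hs
        obtain ⟨k, rfl⟩ : ∃ k, m = k + 1 := ⟨m - 1, by omega⟩
        exact good_N1_path (by omega) hX (by omega)
    · push Not at hX
      obtain ⟨m, rfl⟩ := hX
      rw [size_path] at hs h
      have hY : ∀ m', Y ≠ path m' := by
        rintro m' rfl
        simp at hs
        exact hXY (by rw [hs])
      obtain ⟨k, rfl⟩ : ∃ k, m = k + 1 := ⟨m - 1, by omega⟩
      refine Good.congr ?_ (ut_add_comm _ _)
      exact good_N1_path (by omega) hY (by omega)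

theorem good_N2b_form {X1 Y : RT} (hs : X1.size + 1 = Y.size) (h : 8 ≤ Y.size) :
    Good (((pt.add X1).add pt).add Y) := by
  have hXk : ∀ B ∈ ((pt.add X1).add pt).kids, B.size + 1 ≤ Y.size := by
    intro B hB
    simp at hB
    rcases hB with rfl | rfl
    · simp; omega
    · omega
  have hR : ∀ Yu, Lf Yu Y → R1 (((pt.add X1).add pt).add Y) (((pt.add X1).add pt).add Yu)
      ((pt.add X1).add Y) := by
    intro Yu hYu
    rw [add_swap _ pt Y, add_swap _ pt Yu]
    refine delta hYu (by simp; omega) ?_ (Or.inr ⟨rfl, rfl⟩)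
    intro h'
    have := Lf.size h'
    simp at this
    omega
  have main : ∀ Yu, Lf Yu Y →
      (Lf Y ((pt.add X1).add pt) → Lf Yu (pt.add X1) → pt.add X1 = Y) →
      (¬ (Lf ((pt.add X1).add pt) ((pt.add (pt.add X1)).add pt) ∧ Lf Y ((pt.add Yu).add pt))) →
      Good (((pt.add X1).add pt).add Y) := fun Yu hYu h1 h2 =>
    good_N2b (by simp; omega) hXk (Gr.root _) hYu (hR Yu hYu) h1 h2
  -- the leaf deletions of `Y`
  have hlfY : Lf Y ((pt.add X1).add pt) → (∃ E, Y = (pt.add E).add pt ∧ Lf E X1) ∨ Y = pt.add X1 := by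
    intro h'
    rcases gr_to_add_iff.1 h' with ⟨A', h1, h2⟩ | ⟨B', h1, _⟩ | ⟨_, h2⟩
    · rcases lf_to_pt_add h1 with ⟨B', h3, rfl⟩ | ⟨rfl, rfl⟩
      · exact Or.inl ⟨B', h2, h3⟩
      · simp at hs; omega
    · exact absurd h1 not_gr_pt
    · exact Or.inr h2
  have hX1 : Lf ((pt.add X1).add pt) ((pt.add (pt.add X1)).add pt) → ∃ m, X1 = path m := by
    intro h'
    rcases gr_to_add_iff.1 h' with ⟨A', h1, h2⟩ | ⟨B', h1, _⟩ | ⟨_, h2⟩
    · simp at h2
      subst h2
      obtain ⟨m, hm⟩ := path_of_lf h1
      obtain ⟨_, m', _, h3⟩ := path_eq_add hm.symm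
      exact ⟨m', h3⟩
    · exact absurd h1 not_gr_pt
    · have := congrArg (fun A => Multiset.card (kids A)) h2
      simp at this
  by_cases hf : ∃ E, Y = (pt.add E).add pt
  · obtain ⟨E, rfl⟩ := hf
    simp at h hs
    by_cases hXp : ∃ m, X1 = path m
    · obtain ⟨m, rfl⟩ := hXp
      by_cases hEp : ∃ m, E = path m
      · obtain ⟨m', rfl⟩ := hEp
        simp at hs h
        obtain rfl : m = m' + 1 := by omega
        have h0 := Cat.good_T0 (m := m') (by omega)
        rwa [add_swap (pt.add (path (m' + 1))) pt, add_swap pt (path (m' + 1))]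
      · push Not at hEp
        refine main (pt.add E) (Gr.root _) ?_ ?_
        · intro _ h2
          exfalso
          obtain ⟨B', h3, h4⟩ := lf_to_pt_add' h2 (by omega)
          have h4' : E = B' := by simpa using h4
          subst h4'
          cases m with
          | zero => exact not_gr_pt h3
          | succ m => exact hEp m (lf_path h3)
        · rintro ⟨_, h2⟩
          rcases gr_to_add_iff.1 h2 with ⟨A', h1, h2⟩ | ⟨B', h1, _⟩ | ⟨_, h2⟩
          · simp at h2
            subst h2
            obtain ⟨m, hm⟩ := path_of_lf h1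
            obtain ⟨_, m', _, h3⟩ := path_eq_add hm.symm
            exact hEp m' h3
          · exact not_gr_pt h1
          · have := congrArg (fun A => Multiset.card (kids A)) h2
            simp at this
    · obtain ⟨E1, hE1⟩ := exists_lf (R := E) (by omega)
      refine main ((pt.add E1).add pt) ((hE1.right pt).left pt) ?_ ?_
      · intro _ h2
        exfalso
        obtain ⟨B', h3, h4⟩ := lf_to_pt_add' h2 (by omega)
        have := congrArg (fun A => Multiset.card (kids A)) h4
        simp at this
      · rintro ⟨h1, _⟩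
        exact hXp (hX1 h1)
  · obtain ⟨Yu, hYu⟩ := exists_lf (R := Y) (by omega)
    by_cases hYp : ∃ m, Y = path m
    · by_cases hXp : ∃ m, X1 = path m
      · obtain ⟨m, rfl⟩ := hYp
        obtain ⟨m', rfl⟩ := hXp
        rw [add_swap]
        exact Cat.good_spider m' m
      · refine main Yu hYu ?_ ?_
        · intro h1 _
          rcases hlfY h1 with ⟨E, h2, _⟩ | h2
          · exact absurd ⟨E, h2⟩ hf
          · exact h2.symm
        · rintro ⟨h1, _⟩
          exact hXp (hX1 h1)
    · push Not at hYp
      refine main Yu hYu ?_ ?_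
      · intro h1 _
        rcases hlfY h1 with ⟨E, h2, _⟩ | h2
        · exact absurd ⟨E, h2⟩ hf
        · exact h2.symm
      · rintro ⟨_, h1⟩
        refine not_h2_of hYp hYu ?_ h1
        intro E hE _
        exact hf ⟨E, hE⟩

theorem good_N2b_all {X Y : RT} (hs : X.size = Y.size + 1) (hk : 2 ≤ Multiset.card X.kids)
    (h : 8 ≤ Y.size) : Good (X.add Y) := by
  by_cases hf : ∃ X1, X = (pt.add X1).add pt
  · obtain ⟨X1, rfl⟩ := hf
    exact good_N2b_form (by simp at hs; omega) h
  · have hX : ∀ B ∈ X.kids, B.size + 2 ≤ Y.size := by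
      intro B hB
      obtain ⟨C, rfl⟩ := exists_add_of_mem hB
      simp at hs hk
      have hC1 : C ≠ pt := by
        rintro rfl; simp at hk
      rcases C.eq_pt_or with h1 | ⟨F, G, rfl⟩
      · exact absurd h1 hC1
      · simp at hs
        have := F.size_pos
        have := G.size_pos
        by_contra hc
        have hF : F = pt := eq_pt_of_size (by omega)
        have hG : G = pt := eq_pt_of_size (by omega)
        subst hF hG
        exact hf ⟨B, add_swap _ _ _⟩
    obtain ⟨Yu, hYu⟩ := exists_lf (R := Y) (by omega)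
    obtain ⟨Xv, hXv, hc⟩ : ∃ Xv, Lf Xv X ∧ (Lf Y X → Xv = Y) := by
      by_cases h' : Lf Y X
      · exact ⟨Y, h', fun _ => rfl⟩
      · obtain ⟨Xv, hXv⟩ := exists_lf (R := X) (by omega)
        exact ⟨Xv, hXv, fun h'' => absurd h'' h'⟩
    refine good_N2b hs (fun B hB => by have := hX B hB; omega) hXv hYu (delta' hYu hXv hX)
      (fun h1 _ => hc h1) ?_
    rintro ⟨h1, _⟩
    rcases gr_to_add_iff.1 h1 with ⟨A', h1, h2⟩ | ⟨B', h1, _⟩ | ⟨_, h2⟩
    · rcases lf_to_pt_add h1 with ⟨B', h3, rfl⟩ | ⟨rfl, rfl⟩
      · exact hf ⟨B', h2⟩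
      · rw [h2] at hk; simp at hk
    · exact not_gr_pt h1
    · rw [h2] at hk; simp at hk

theorem good_all (R : RT) (hR : Bal R) (hs : 20 ≤ R.size) : Good R := by
  by_cases hG : ∀ B ∈ R.kids, 2 * B.size + 2 ≤ R.size
  · exact good_G hG (by omega)
  · push Not at hG
    obtain ⟨Y, hY, hYs⟩ := hG
    have h1 := hR Y hY
    obtain ⟨X, rfl⟩ := exists_add_of_mem hY
    simp at hYs h1 hs
    by_cases he : X.size = Y.size
    · exact good_N1_all he (by omega)
    · have he' : X.size = Y.size + 1 := by omega
      rcases two_kids_or X with rfl | ⟨A, rfl⟩ | ⟨E, A, B, rfl⟩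
      · simp at hs he'; omega
      · exact good_N2a_all (by simp at he'; omega) (by simp at he' hs; omega)
      · exact good_N2b_all he' (by simp) (by omega)

theorem main : ∃ N : ℕ, ∀ n : ℕ, N ≤ n → ∀ T : SimpleGraph (Fin n), T.IsTree → Det T :=
  main_of_good 20 good_all

end Pool.Agent.H48.Drn
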