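import Pool.Agent.H91.Drn.Base

/-! The near-bicentroid cases `X -- Y` (n even) and `⟨X, Y⟩` (n odd), `X ≠ Y` of the same size,
two leaf cards, one leaf in each of `X`, `Y`. -/

set_option autoImplicit false

namespace Pool.Agent.H48.Drn

open RT

theorem lf_to_pt_add {A B : RT} (h : Lf A (pt.add B)) :
    (∃ B', Lf B' B ∧ A = pt.add B') ∨ (B = pt ∧ A = pt) := by
  rcases gr_to_add_iff.1 h with ⟨A', h1, h2⟩ | ⟨B', h1, h2⟩ | ⟨h1, h2⟩
  · exact absurd h1 not_gr_pt
  · exact Or.inl ⟨B', h1, h2⟩
  · exact Or.inr ⟨h1, h2⟩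

theorem lf_to_pt_add' {A B : RT} (h : Lf A (pt.add B)) (hB : 2 ≤ B.size) :
    ∃ B', Lf B' B ∧ A = pt.add B' := by
  rcases lf_to_pt_add h with h | ⟨rfl, _⟩
  · exact h
  · simp at hB

theorem pt_add_eq_add {B C D : RT} (h : pt.add B = C.add D) : C = pt ∧ B = D := by
  rcases add_eq_add_iff.1 h with ⟨rfl, rfl⟩ | ⟨E, h1, _⟩
  · exact ⟨rfl, rfl⟩
  · exact absurd h1.symm add_ne_pt

/-- hypotheses on a mixed pair of leaves `u ∈ X`, `v ∈ Y` -/
structure Mix (X Y Xu Yv : RT) : Prop where
  size : X.size = Y.size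
  ne : X ≠ Y
  hu : Lf Xu X
  hv : Lf Yv Y
  h1 : Xu ≠ Yv
  h2 : ¬ (Lf X ((pt.add Xu).add pt) ∧ Lf Y ((pt.add Yv).add pt))
  h3 : ∀ X1 Q, X = pt.add X1 → Y = pt.add Yv → Lf X1 Q → Lf Xu Q → False
  h3' : ∀ Y1 Q, Y = pt.add Y1 → X = pt.add Xu → Lf Y1 Q → Lf Yv Q → False
  h4 : ∀ X1, X = pt.add X1 → Lf X1 Y → Lf Xu (pt.add Yv) → Yv = X1
  h4' : ∀ Y1, Y = pt.add Y1 → Lf Y1 X → Lf Yv (pt.add Xu) → Xu = Y1
  h5 : ∀ X1 Y1, X = pt.add X1 → Y = pt.add Y1 → Lf X1 (pt.add Xu) → Lf Y1 (pt.add Yv) → False

theorem Mix.symm {X Y Xu Yv : RT} (m : Mix X Y Xu Yv) : Mix Y X Yv Xu where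
  size := m.size.symm
  ne := m.ne.symm
  hu := m.hv
  hv := m.hu
  h1 := m.h1.symm
  h2 := fun h => m.h2 ⟨h.2, h.1⟩
  h3 := m.h3'
  h3' := m.h3
  h4 := m.h4'
  h4' := m.h4
  h5 := fun X1 Y1 h1 h2 h3 h4 => m.h5 Y1 X1 h2 h1 h4 h3

theorem n2a_form {X Y Xu S : RT} (hs : X.size = Y.size) (hu : Lf Xu X)
    (h : Lf ((pt.add Xu).add Y) S) :
    ∃ S1, ut S1 = ut S ∧ SBal S1 ∧ ((∃ Xt, Lf Xu Xt ∧ S1 = (pt.add Xt).add Y) ∨
      S1 = ((pt.add Xu).add pt).add Y ∨ ∃ Yp, Lf Y Yp ∧ S1 = Yp.add (pt.add Xu)) := by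
  have hu' := Lf.size hu
  rcases gr_add_iff.1 h with ⟨A', hA, rfl⟩ | ⟨Yp, hYp, rfl⟩
  · rcases gr_add_iff.1 hA with ⟨p', hp, rfl⟩ | ⟨Xt, hXt, rfl⟩
    · rw [gr_pt_iff] at hp
      subst hp
      refine ⟨_, rfl, ?_, Or.inr (Or.inl (by rw [add_swap pt Xu pt]))⟩
      intro B hB
      simp at hB ⊢
      have := pt.size_pos
      rcases hB with rfl | rfl | rfl <;> simp <;> omega
    · refine ⟨_, rfl, ?_, Or.inl ⟨Xt, hXt, rfl⟩⟩
      have := Lf.size hXt
      intro B hB
      simp at hB ⊢
      rcases hB with rfl | rfl <;> omega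
  · refine ⟨Yp.add (pt.add Xu), ut_add_comm _ _, ?_, Or.inr (Or.inr ⟨Yp, hYp, rfl⟩)⟩
    have := Lf.size hYp
    intro B hB
    rw [mem_kids_add] at hB
    simp
    rcases hB with rfl | hB
    · simp; omega
    · have := size_lt_of_mem' hB
      omega

theorem mix_13 {X Y Xu Yv Xt Xp : RT} (m : Mix X Y Xu Yv) (h2 : 2 ≤ X.size) (hXt : Lf Xu Xt)
    (hXp : Lf X Xp) (h : (pt.add Xt).add Y = Xp.add (pt.add Yv)) :
    (pt.add Xt).add Y = (pt.add X).add Y := by
  have e1 := Lf.size m.hu
  have e2 := Lf.size hXt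
  have e3 := m.size
  rcases add_eq_add_iff.1 h with ⟨h3, h4⟩ | ⟨E, h3, h4⟩
  · subst h3
    obtain ⟨X1, hX1, rfl⟩ := lf_to_pt_add' hXp (by omega)
    exact (m.h3 X1 Xt rfl h4 hX1 hXt).elim
  · obtain ⟨rfl, rfl⟩ := pt_add_eq_add h3
    subst h4
    obtain ⟨X1, hX1, rfl⟩ := lf_to_pt_add' hXp (by omega)
    rw [m.h4 X1 rfl hX1 hXt]

theorem mix_23 {X Y Xu Yv Xp : RT} (m : Mix X Y Xu Yv)
    (hXp : Lf X Xp) (h : ((pt.add Xu).add pt).add Y = Xp.add (pt.add Yv)) : False := by
  have e1 := Lf.size m.hu
  have e2 := Lf.size m.hv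
  have e3 := m.size
  rcases add_eq_add_iff.1 h with ⟨h3, h4⟩ | ⟨E, h3, h4⟩
  · subst h3
    refine m.h2 ⟨hXp, ?_⟩
    rw [← h4]
    exact Gr.root _
  · have e4 := congrArg RT.size h3
    simp at e4
    have hE : E = pt := eq_pt_of_size (by omega)
    subst hE
    have := congrArg (fun A => Multiset.card (kids A)) h3
    simp at this

theorem mix_33 {X Y Xu Yv Xp Yp : RT} (m : Mix X Y Xu Yv) (hs : 2 ≤ X.size)
    (hXp : Lf X Xp) (hYp : Lf Y Yp) (h : Yp.add (pt.add Xu) = Xp.add (pt.add Yv)) : False := by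
  have e1 := Lf.size m.hu
  have e2 := Lf.size m.hv
  have e3 := m.size
  have e4 := Lf.size hXp
  have e5 := Lf.size hYp
  rcases add_eq_add_iff.1 h with ⟨h3, h4⟩ | ⟨E, h3, h4⟩
  · exact m.h1 (by simpa using h4)
  · have e6 := congrArg RT.size h3
    simp at e6
    have hE : E = pt := eq_pt_of_size (by omega)
    subst hE
    subst h3 h4
    obtain ⟨X1, hX1, rfl⟩ := lf_to_pt_add' hXp (by simp; omega)
    obtain ⟨Y1, hY1, rfl⟩ := lf_to_pt_add' hYp (by simp; omega)
    exact m.h5 X1 Y1 rfl rfl hX1 hY1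

/-- n odd -/
theorem Mix.good_N2a {X Y Xu Yv : RT} (m : Mix X Y Xu Yv) (hs : 2 ≤ X.size) :
    Good ((pt.add X).add Y) := by
  have e1 := Lf.size m.hu
  have e2 := Lf.size m.hv
  have e3 := m.size
  refine good_of_leaf (Ru := (pt.add Xu).add Y) (Rv := (pt.add X).add Yv)
    ((m.hu.right pt).left Y) (m.hv.right _) ?_ ?_
  · intro h
    rcases add_eq_add_iff.1 h with ⟨h3, h4⟩ | ⟨E, h3, h4⟩
    · have := congrArg RT.size h4
      omega
    · obtain ⟨rfl, h5⟩ := pt_add_eq_add h3
      exact m.h1 h5
  · intro S S' hS hSu hSv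
    obtain ⟨S1, q1, q2, q3⟩ := n2a_form m.size m.hu hSu
    have hSv' : Lf ((pt.add Yv).add X) S' := by rw [add_swap]; exact hSv
    obtain ⟨S2, q4, q5, q6⟩ := n2a_form m.symm.size m.symm.hu hSv'
    have q7 : S1 = S2 := q2.eq q5.bal (by rw [q1, q4, hS])
    subst q7
    rw [← q1]
    rcases q3 with ⟨Xt, hXt, rfl⟩ | rfl | ⟨Yp, hYp, rfl⟩ <;>
      rcases q6 with ⟨Yt, hYt, h⟩ | h | ⟨Xp, hXp, h⟩
    · rcases add_eq_add_iff.1 h with ⟨_, h4⟩ | ⟨E, h3, h4⟩
      · exact absurd h4.symm m.ne
      · obtain ⟨rfl, rfl⟩ := pt_add_eq_add h3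
        rfl
    · have := congrArg (fun A => Multiset.card (kids A)) h
      simp at this
    · rw [mix_13 m hs hXt hXp h]
    · have := congrArg (fun A => Multiset.card (kids A)) h
      simp at this
    · exfalso
      rcases add_eq_add_iff.1 h with ⟨_, h4⟩ | ⟨E, h3, h4⟩
      · exact absurd h4.symm m.ne
      · have e6 := congrArg RT.size h3
        simp at e6
        have hE : E = pt := eq_pt_of_size (by omega)
        subst hE
        have := congrArg (fun A => Multiset.card (kids A)) h3
        simp at this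
    · exact (mix_23 m hXp h).elim
    · rw [h, mix_13 m.symm (by omega) hYt hYp h.symm, add_swap]
    · exact (mix_23 m.symm hYp h.symm).elim
    · exact (mix_33 m hs hXp hYp h).elim

/-- n even -/
theorem Mix.good_N1 {X Y Xu Yv : RT} (m : Mix X Y Xu Yv) (hs : 3 ≤ X.size) :
    Good (X.add Y) := by
  have e1 := Lf.size m.hu
  have e2 := Lf.size m.hv
  have e3 := m.size
  refine good_of_leaf (Ru := Xu.add Y) (Rv := X.add Yv) (m.hu.left Y) (m.hv.right _) ?_ ?_
  · intro h
    rcases add_eq_add_iff.1 h with ⟨h3, h4⟩ | ⟨E, h3, h4⟩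
    · have := congrArg RT.size h4
      omega
    · have := congrArg RT.size h3
      simp at this
      have := E.size_pos
      omega
  · intro S S' hS hSu hSv
    obtain ⟨S1, hS1, q1⟩ := gr_transport (A' := Y.add Xu) hSu (ut_add_comm _ _)
    rw [← q1]
    have q2 : ut S1 = ut S' := by rw [q1, hS]
    clear q1 hSu hS S
    have b1 : Bal S1 := by
      rcases gr_add_iff.1 hS1 with ⟨Yp, hYp, rfl⟩ | ⟨Xt, hXt, rfl⟩
      · have := Lf.size hYp
        intro B hB
        rw [mem_kids_add] at hB
        simp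
        rcases hB with rfl | hB
        · omega
        · have := size_lt_of_mem' hB
          omega
      · have := Lf.size hXt
        intro B hB
        rw [mem_kids_add] at hB
        simp
        rcases hB with rfl | hB
        · omega
        · have := size_lt_of_mem' hB
          omega
    have b2 : Bal S' := by
      rcases gr_add_iff.1 hSv with ⟨Yp, hYp, rfl⟩ | ⟨Xt, hXt, rfl⟩
      · have := Lf.size hYp
        intro B hB
        rw [mem_kids_add] at hB
        simp
        rcases hB with rfl | hB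
        · omega
        · have := size_lt_of_mem' hB
          omega
      · have := Lf.size hXt
        intro B hB
        rw [mem_kids_add] at hB
        simp
        rcases hB with rfl | hB
        · omega
        · have := size_lt_of_mem' hB
          omega
    rcases b1.eq_or b2 q2 with q3 | ⟨P, Q, q3, q4, q5⟩
    · subst q3
      rcases gr_add_iff.1 hS1 with ⟨Yp, hYp, rfl⟩ | ⟨Xt, hXt, rfl⟩ <;>
        rcases gr_add_iff.1 hSv with ⟨Xp, hXp, h⟩ | ⟨Yt, hYt, h⟩
      · exfalso
        have e4 := Lf.size hYp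
        rcases add_eq_add_iff.1 h with ⟨h3, h4⟩ | ⟨E, h3, h4⟩
        · exact m.h1 h4
        · have e6 := congrArg RT.size h3
          simp at e6
          obtain rfl | ⟨F, G, rfl⟩ := E.eq_pt_or
          · simp at e6; omega
          · simp at e6
            have := F.size_pos
            have := G.size_pos
            have hF : F = pt := eq_pt_of_size (by omega)
            have hG : G = pt := eq_pt_of_size (by omega)
            subst hF hG h3 h4
            rw [add_swap] at hXp hYp
            exact m.h2 ⟨hXp, hYp⟩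
      · exfalso
        have e4 := Lf.size hYp
        have e5 := Lf.size hYt
        rcases add_eq_add_iff.1 h with ⟨h3, h4⟩ | ⟨E, h3, h4⟩
        · have := congrArg RT.size h4
          omega
        · have e6 := congrArg RT.size h3
          simp at e6
          have hE : E = pt := eq_pt_of_size (by omega)
          subst hE h3
          obtain ⟨Y1, hY1, rfl⟩ := lf_to_pt_add' hYp (by omega)
          exact m.h3' Y1 Yt rfl h4 hY1 hYt
      · exfalso
        have e4 := Lf.size hXt
        have e5 := Lf.size hXp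
        rcases add_eq_add_iff.1 h with ⟨h3, h4⟩ | ⟨E, h3, h4⟩
        · have := congrArg RT.size h4
          omega
        · have e6 := congrArg RT.size h3
          simp at e6
          have hE : E = pt := eq_pt_of_size (by omega)
          subst hE h4
          obtain ⟨X1, hX1, rfl⟩ := lf_to_pt_add' hXp (by omega)
          exact m.h3 X1 Xt rfl h3 hX1 hXt
      · exfalso
        have e4 := Lf.size hXt
        have e5 := Lf.size hYt
        rcases add_eq_add_iff.1 h with ⟨h3, h4⟩ | ⟨E, h3, h4⟩
        · exact m.ne h3.symm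
        · have := congrArg RT.size h3
          simp at this
          have := E.size_pos
          omega
    · have q6 := congrArg RT.size q4
      rcases gr_add_iff.1 hS1 with ⟨Yp, hYp, h⟩ | ⟨Xt, hXt, h⟩ <;>
        rcases gr_add_iff.1 hSv with ⟨Xp, hXp, h'⟩ | ⟨Yt, hYt, h'⟩
      · exfalso
        have e4 := Lf.size hYp
        have e5 := Lf.size hXp
        rw [h] at q4 q6
        rw [h'] at q5
        simp at q6
        rcases add_eq_add_iff.1 q4 with ⟨h3, h4⟩ | ⟨E, h3, h4⟩
        · have := congrArg RT.size h4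
          omega
        · have e6 := congrArg RT.size h3
          simp at e6
          have hE : E = pt := eq_pt_of_size (by omega)
          subst hE
          rcases add_eq_add_iff.1 q5 with ⟨h5, h6⟩ | ⟨E, h5, h6⟩
          · have := congrArg RT.size h6
            omega
          · have e7 := congrArg RT.size h5
            simp at e7
            have hE : E = pt := eq_pt_of_size (by omega)
            subst hE
            subst h3 h5
            subst h4 h6
            obtain ⟨X1, hX1, rfl⟩ := lf_to_pt_add' hXp (by omega)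
            obtain ⟨Y1, hY1, rfl⟩ := lf_to_pt_add' hYp (by omega)
            exact m.h5 X1 Y1 rfl rfl hX1 hY1
      · have e4 := Lf.size hYp
        have e5 := Lf.size hYt
        rw [h] at q4 q6
        rw [h'] at q5
        simp at q6
        rcases add_eq_add_iff.1 q4 with ⟨h3, h4⟩ | ⟨E, h3, h4⟩
        · have := congrArg RT.size h4
          omega
        · have e6 := congrArg RT.size h3
          simp at e6
          have hE : E = pt := eq_pt_of_size (by omega)
          subst hE
          rcases add_eq_add_iff.1 q5 with ⟨h5, h6⟩ | ⟨E, h5, h6⟩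
          · subst h3 h4 h5 h6
            obtain ⟨Y1, hY1, rfl⟩ := lf_to_pt_add' hYp (by omega)
            have := m.h4' Y1 rfl hY1 hYt
            subst this
            rw [q2, h']
          · have e7 := congrArg RT.size h5
            simp at e7
            have := E.size_pos
            omega
      · have e4 := Lf.size hXt
        have e5 := Lf.size hXp
        rw [h] at q4 q6
        rw [h'] at q5
        simp at q6
        rcases add_eq_add_iff.1 q5 with ⟨h3, h4⟩ | ⟨E, h3, h4⟩
        · have := congrArg RT.size h4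
          omega
        · have e6 := congrArg RT.size h3
          simp at e6
          have hE : E = pt := eq_pt_of_size (by omega)
          subst hE
          rcases add_eq_add_iff.1 q4 with ⟨h5, h6⟩ | ⟨E, h5, h6⟩
          · subst h3 h4 h5 h6
            obtain ⟨X1, hX1, rfl⟩ := lf_to_pt_add' hXp (by omega)
            have := m.h4 X1 rfl hX1 hXt
            subst this
            rw [h, ut_add_comm]
          · have e7 := congrArg RT.size h5
            simp at e7
            have := E.size_pos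
            omega
      · have e4 := Lf.size hXt
        have e5 := Lf.size hYt
        rw [h] at q4 q6
        rw [h'] at q5
        simp at q6
        rcases add_eq_add_iff.1 q4 with ⟨h3, h4⟩ | ⟨E, h3, h4⟩
        · rcases add_eq_add_iff.1 q5 with ⟨h5, h6⟩ | ⟨E, h5, h6⟩
          · subst h3 h4 h5
            rw [h, ut_add_comm]
          · have e7 := congrArg RT.size h5
            simp at e7
            have := E.size_pos
            omega
        · have e7 := congrArg RT.size h3
          simp at e7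
          have := E.size_pos
          omega

end Pool.Agent.H48.Drn
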