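import Pool.Agent.H91.Drn.EqCase

/-! n = 2h+1, a branch `Y` of size h at the centroid, at least three branches. -/

set_option autoImplicit false

namespace Pool.Agent.H48.Drn

open RT

theorem good_N2b {X Y Xv Yu : RT} (hs : X.size = Y.size + 1) (hX : ∀ B ∈ X.kids, B.size + 1 ≤ Y.size)
    (hXv : Lf Xv X) (hYu : Lf Yu Y) (hR : R1 (X.add Y) (X.add Yu) (Xv.add Y))
    (h1 : Lf Y X → Lf Yu Xv → Xv = Y)
    (h2 : ¬ (Lf X ((pt.add Xv).add pt) ∧ Lf Y ((pt.add Yu).add pt))) : Good (X.add Y) := by
  have e1 := Lf.size hXv
  have e2 := Lf.size hYu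
  refine good_of_leaf (Ru := X.add Yu) (Rv := Xv.add Y) (hYu.right X) (hXv.left Y) hR.2.2.1 ?_
  intro S S' hS hSu hSv
  have b1 : SBal S := by
    rcases gr_add_iff.1 hSu with ⟨Xp, hXp, rfl⟩ | ⟨Yt, hYt, rfl⟩
    · have e3 := Lf.size hXp
      intro B hB
      rw [mem_kids_add] at hB
      simp
      rcases hB with rfl | hB
      · omega
      · -- kids of `Xp`
        rcases hXp.casesAdd with rfl | ⟨A, B1, B2, rfl, rfl, h3⟩
        · rw [mem_kids_add] at hB
          rcases hB with rfl | hB
          · have := Y.size_pos; simp; omega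
          · have := hX B hB; omega
        · rw [mem_kids_add] at hB
          rcases hB with rfl | hB
          · have := hX B1 (by simp)
            have := Lf.size h3
            omega
          · have := hX B (by simp [hB]); omega
    · have e3 := Lf.size hYt
      intro B hB
      rw [mem_kids_add] at hB
      simp
      rcases hB with rfl | hB
      · omega
      · have := hX B hB; omega
  rcases gr_add_iff.1 hSv with ⟨Xp, hXp, rfl⟩ | ⟨Yp, hYp, rfl⟩
  · have b2 : Bal (Xp.add Y) := by
      have e3 := Lf.size hXp
      intro B hB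
      rw [mem_kids_add] at hB
      simp
      rcases hB with rfl | hB
      · omega
      · have := size_lt_of_mem' hB
        omega
    have := b1.eq b2 hS
    rw [this, hR.2.2.2 _ (this ▸ hSu) hSv]
  · have e3 := Lf.size hYp
    have b2 : Bal (Yp.add Xv) := by
      intro B hB
      rw [mem_kids_add] at hB
      simp
      rcases hB with rfl | hB
      · omega
      · have := size_lt_of_mem' hB
        omega
    have h3 := b1.eq b2 (by rw [hS, ut_add_comm])
    rcases gr_add_iff.1 hSu with ⟨Xp, hXp, rfl⟩ | ⟨Yt, hYt, rfl⟩
    · exfalso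
      have e4 := Lf.size hXp
      rcases add_eq_add_iff.1 h3 with ⟨_, h4⟩ | ⟨E, h4, h5⟩
      · have := congrArg RT.size h4
        omega
      · have e6 := congrArg RT.size h4
        simp at e6
        obtain rfl | ⟨F, G, rfl⟩ := E.eq_pt_or
        · simp at e6; omega
        · simp at e6
          have := F.size_pos
          have := G.size_pos
          have hF : F = pt := eq_pt_of_size (by omega)
          have hG : G = pt := eq_pt_of_size (by omega)
          subst hF hG h4 h5
          rw [add_swap] at hXp hYp
          exact h2 ⟨hXp, hYp⟩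
    · have e4 := Lf.size hYt
      rcases add_eq_add_iff.1 h3 with ⟨h4, h5⟩ | ⟨E, h4, h5⟩
      · subst h4 h5
        rw [h1 hYp hYt]
      · exfalso
        have e6 := congrArg RT.size h4
        simp at e6
        have hE : E = pt := eq_pt_of_size (by omega)
        subst hE
        have := hX Xv (by rw [h4]; simp)
        omega

end Pool.Agent.H48.Drn
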