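import Pool.Agent.H91.Drn.Mixed

/-! Lemmas P1 to P4 on leaf deletions and paths. -/

set_option autoImplicit false

namespace Pool.Agent.H48.Drn

open RT

theorem path_succ (n : ℕ) : path (n + 1) = pt.add (path n) := rfl

@[simp] theorem size_path (n : ℕ) : (path n).size = n + 1 := by
  induction n with
  | zero => rfl
  | succ n ih => rw [path_succ, size_add, ih, size_pt]; omega

/-- P3 -/
theorem path_of_cross : ∀ (n : ℕ) (A B : RT), A.size = n → Lf A (pt.add B) → Lf B (pt.add A) →
    ∃ m, A = path m ∧ B = path m := by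
  intro n
  induction n using Nat.strong_induction_on with
  | _ n ih =>
    intro A B hn h1 h2
    rcases lf_to_pt_add h1 with ⟨A1, hA1, rfl⟩ | ⟨rfl, rfl⟩
    · rcases lf_to_pt_add h2 with ⟨B1, hB1, rfl⟩ | ⟨h, _⟩
      · obtain ⟨m, rfl, rfl⟩ := ih A1.size (by simp at hn; omega) A1 B1 rfl hA1 hB1
        exact ⟨m + 1, rfl, rfl⟩
      · exact absurd h add_ne_pt
    · exact ⟨0, rfl, rfl⟩

/-- P1 -/
theorem path_of_lf {A : RT} (h : Lf A (pt.add A)) : ∃ m, A = path m := by
  obtain ⟨m, h, _⟩ := path_of_cross _ A A rfl h h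
  exact ⟨m, h⟩

/-- P2 -/
theorem path_of_lf2 {A A' : RT} (h' : Lf A' A) (h : Lf A (pt.add (pt.add A'))) :
    ∃ m, A = path m := by
  rcases lf_to_pt_add h with ⟨B', hB', rfl⟩ | ⟨h, _⟩
  · obtain ⟨m, rfl, _⟩ := path_of_cross _ B' A' rfl hB' h'
    exact ⟨m + 1, rfl⟩
  · exact absurd h add_ne_pt

theorem path_eq_add {n : ℕ} {A B : RT} (h : path n = A.add B) : A = pt ∧ ∃ m, n = m + 1 ∧ B = path m := by
  cases n with
  | zero => exact absurd h.symm add_ne_pt
  | succ n =>
    obtain ⟨h1, h2⟩ := pt_add_eq_add h
    exact ⟨h1, n, rfl, h2.symm⟩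

theorem lf_path {A : RT} {n : ℕ} (h : Lf A (path (n + 1))) : A = path n := by
  induction n generalizing A with
  | zero =>
    rcases lf_to_pt_add h with ⟨A1, hA1, rfl⟩ | ⟨_, rfl⟩
    · exact absurd hA1 not_gr_pt
    · rfl
  | succ n ih =>
    rcases lf_to_pt_add h with ⟨A1, hA1, rfl⟩ | ⟨h, _⟩
    · rw [ih hA1]; rfl
    · exact absurd h add_ne_pt

theorem lf_path_succ (n : ℕ) : Lf (path n) (path (n + 1)) := by
  induction n with
  | zero => exact Gr.root _
  | succ n ih => exact ih.right _

theorem eq_path_or (A : RT) : (∃ m, A = path m) ∨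
    ∃ (i : ℕ) (E C D : RT), A = chain i ((E.add C).add D) := by
  induction A using indAdd with
  | h0 => exact Or.inl ⟨0, rfl⟩
  | h1 A B _ ihB =>
    rcases A.eq_pt_or with rfl | ⟨E, C, rfl⟩
    · rcases ihB with ⟨m, rfl⟩ | ⟨i, E, C, D, rfl⟩
      · exact Or.inl ⟨m + 1, rfl⟩
      · exact Or.inr ⟨i + 1, E, C, D, rfl⟩
    · exact Or.inr ⟨0, E, C, B, rfl⟩

theorem add2_cancel {E A B C D : RT} (h : (E.add A).add B = (E.add C).add D) :
    (A = C ∧ B = D) ∨ (A = D ∧ B = C) := by
  have h1 := congrArg kids h
  simp only [kids_add] at h1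
  have h2 : ({B, A} : Multiset RT) + E.kids = {D, C} + E.kids := by
    simpa using h1
  have h3 : ({B, A} : Multiset RT) = {D, C} := add_right_cancel h2
  rcases Multiset.cons_eq_cons.1 h3 with ⟨rfl, h4⟩ | ⟨_, cs, h4, h5⟩
  · left
    exact ⟨by simpa using h4, rfl⟩
  · right
    have h6 : Multiset.card cs = 0 := by
      have := congrArg Multiset.card h4
      simpa using this
    rw [Multiset.card_eq_zero] at h6
    subst h6
    exact ⟨by simpa using h4, by simpa using h5.symm⟩

/-- if all leaf deletions of `X` coincide then all branches of `X` are equal -/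
theorem kids_eq_of_unique {X : RT} (h : ∀ D D', Lf D X → Lf D' X → D = D') {E A B : RT}
    (hX : X = (E.add A).add B) : A = B := by
  subst hX
  have key : ∀ E A B : RT, (∀ D D', Lf D ((E.add A).add B) → Lf D' ((E.add A).add B) → D = D') →
      A = pt → A = B := by
    rintro E A B h rfl
    by_cases hB : 2 ≤ B.size
    · obtain ⟨B', hB'⟩ := exists_lf hB
      have h1 : Lf (E.add B) ((E.add pt).add B) := by
        rw [add_swap]; exact Gr.root _
      have h2 : Lf ((E.add pt).add B') ((E.add pt).add B) := hB'.right _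
      have h3 := congrArg (fun A => Multiset.card (kids A)) (h _ _ h1 h2)
      simp at h3
    · exact (eq_pt_of_size (by have := B.size_pos; omega)).symm
  by_cases hA : 2 ≤ A.size
  · obtain ⟨A', hA'⟩ := exists_lf hA
    by_cases hB : 2 ≤ B.size
    · obtain ⟨B', hB'⟩ := exists_lf hB
      have h1 : Lf ((E.add A').add B) ((E.add A).add B) := (hA'.right E).left B
      have h2 : Lf ((E.add A).add B') ((E.add A).add B) := hB'.right _
      have hs := Lf.size hB'
      rcases add2_cancel (h _ _ h1 h2) with ⟨_, h4⟩ | ⟨_, h4⟩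
      · have := congrArg RT.size h4
        omega
      · exact h4.symm
    · have hB' : B = pt := eq_pt_of_size (by have := B.size_pos; omega)
      rw [add_swap] at h
      exact (key E B A h hB').symm
  · have hA' : A = pt := eq_pt_of_size (by have := A.size_pos; omega)
    exact key E A B h hA'

theorem kids_all_eq_of_unique {X : RT} (h : ∀ D D', Lf D X → Lf D' X → D = D') {E A : RT}
    (hX : X = E.add A) : ∀ B ∈ E.kids, B = A := by
  intro B hB
  obtain ⟨F, rfl⟩ := exists_add_of_mem hB
  exact kids_eq_of_unique h hX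

theorem eq_of_kids_all_eq {E F A : RT} (hE : ∀ B ∈ E.kids, B = A) (hF : ∀ B ∈ F.kids, B = A)
    (hs : E.size = F.size) : E = F := by
  have h1 := Multiset.eq_replicate_of_mem hE
  have h2 := Multiset.eq_replicate_of_mem hF
  rw [size_eq E, size_eq F, h1, h2] at hs
  simp at hs
  have h3 : Multiset.card E.kids = Multiset.card F.kids := by
    have := A.size_pos
    rcases hs with h | h
    · exact h
    · omega
  rw [← kids_inj, h1, h2, h3]

theorem two_kids_or (X : RT) : X = pt ∨ (∃ A, X = pt.add A) ∨ ∃ E A B : RT, X = (E.add A).add B := by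
  rcases X.eq_pt_or with h | ⟨E, A, rfl⟩
  · exact Or.inl h
  · rcases E.eq_pt_or with rfl | ⟨F, B, rfl⟩
    · exact Or.inr (Or.inl ⟨A, rfl⟩)
    · exact Or.inr (Or.inr ⟨F, B, A, rfl⟩)

theorem p4_aux {A F C D : RT} (hA : ∀ m, A ≠ path m)
    (h : ∀ X' Y', Lf X' (pt.add A) → Lf Y' ((F.add C).add D) → X' = Y') : False := by
  have hA2 : 2 ≤ A.size := by
    by_contra hc
    exact hA 0 (eq_pt_of_size (by have := A.size_pos; omega))
  obtain ⟨A', hA'⟩ := exists_lf hA2
  have hY : 2 ≤ ((F.add C).add D).size := by
    have := F.size_pos; have := C.size_pos; have := D.size_pos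
    simp; omega
  obtain ⟨Y0, hY0⟩ := exists_lf hY
  have hu : ∀ D1 D2, Lf D1 ((F.add C).add D) → Lf D2 ((F.add C).add D) → D1 = D2 := by
    intro D1 D2 h1 h2
    rw [← h _ _ (hA'.right pt) h1, ← h _ _ (hA'.right pt) h2]
  have hCD : C = D := kids_eq_of_unique hu rfl
  subst hCD
  by_cases hC : 2 ≤ C.size
  · obtain ⟨C', hC'⟩ := exists_lf hC
    have h1 := h _ _ (hA'.right pt) (hC'.right (F.add C))
    have := congrArg (fun A => Multiset.card (kids A)) h1
    simp at this
  · have hC' : C = pt := eq_pt_of_size (by have := C.size_pos; omega)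
    subst hC'
    have h1 := h _ _ (hA'.right pt) (Gr.root (F.add pt))
    obtain ⟨rfl, h2⟩ := pt_add_eq_add h1
    subst h2
    have hs := Lf.size hA'
    simp at hs
    obtain rfl | ⟨G, K, rfl⟩ := A.eq_pt_or
    · simp at hs
    · simp at hs
      have := G.size_pos
      have := K.size_pos
      have hG : G = pt := eq_pt_of_size (by omega)
      have hK : K = pt := eq_pt_of_size (by omega)
      subst hG hK
      exact hA 1 rfl

/-- P4 -/
theorem exists_lf_ne : ∀ (n : ℕ) (X Y : RT), X.size = n → X.size = Y.size → X ≠ Y →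
    (∀ m, X ≠ path m) → (∀ m, Y ≠ path m) → ∃ X' Y', Lf X' X ∧ Lf Y' Y ∧ X' ≠ Y' := by
  intro n
  induction n using Nat.strong_induction_on with
  | _ n ih =>
    intro X Y hn hs hne hX hY
    by_contra hcon
    push Not at hcon
    rcases two_kids_or X with rfl | ⟨A, rfl⟩ | ⟨E, A, A2, rfl⟩
    · exact hX 0 rfl
    · rcases two_kids_or Y with rfl | ⟨C, rfl⟩ | ⟨F, C, C2, rfl⟩
      · exact hY 0 rfl
      · obtain ⟨A', C', h1, h2, h3⟩ := ih A.size (by simp at hn; omega) A C rfl (by simpa using hs)
          (fun h => hne (by rw [h])) (fun m h => hX (m + 1) (by rw [h]; rfl))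
          (fun m h => hY (m + 1) (by rw [h]; rfl))
        have := hcon _ _ (h1.right pt) (h2.right pt)
        exact h3 (by simpa using this)
      · exact p4_aux (fun m h => hX (m + 1) (by rw [h]; rfl)) hcon
    · rcases two_kids_or Y with rfl | ⟨C, rfl⟩ | ⟨F, C, C2, rfl⟩
      · exact hY 0 rfl
      · exact p4_aux (fun m h => hY (m + 1) (by rw [h]; rfl))
          (fun X' Y' h1 h2 => (hcon Y' X' h2 h1).symm)
      · have hX2 : 2 ≤ ((E.add A).add A2).size := by
          have := E.size_pos; have := A.size_pos; have := A2.size_pos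
          simp; omega
        have hY2 : 2 ≤ ((F.add C).add C2).size := by
          have := F.size_pos; have := C.size_pos; have := C2.size_pos
          simp; omega
        obtain ⟨X0, hX0⟩ := exists_lf hX2
        obtain ⟨Y0, hY0⟩ := exists_lf hY2
        have huX : ∀ D1 D2, Lf D1 ((E.add A).add A2) → Lf D2 ((E.add A).add A2) → D1 = D2 := by
          intro D1 D2 h1 h2
          rw [hcon _ _ h1 hY0, hcon _ _ h2 hY0]
        have huY : ∀ D1 D2, Lf D1 ((F.add C).add C2) → Lf D2 ((F.add C).add C2) → D1 = D2 := by
          intro D1 D2 h1 h2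
          rw [← hcon _ _ hX0 h1, ← hcon _ _ hX0 h2]
        have e1 : A = A2 := kids_eq_of_unique huX rfl
        have e2 : C = C2 := kids_eq_of_unique huY rfl
        subst e1 e2
        have hE := kids_all_eq_of_unique huX rfl
        have hF := kids_all_eq_of_unique huY rfl
        have hAC : A ≠ C := by
          rintro rfl
          apply hne
          rw [eq_of_kids_all_eq hE hF (by simpa using hs)]
        by_cases hA : 2 ≤ A.size
        · obtain ⟨A', hA'⟩ := exists_lf hA
          by_cases hC : 2 ≤ C.size
          · obtain ⟨C', hC'⟩ := exists_lf hC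
            have h1 := hcon _ _ (hA'.right (E.add A)) (hC'.right (F.add C))
            have sA := Lf.size hA'
            have sC := Lf.size hC'
            have m1 : A ∈ ((F.add C).add C').kids := by rw [← h1]; simp
            have m2 : C ∈ ((E.add A).add A').kids := by rw [h1]; simp
            rw [mem_kids_add] at m1 m2
            rcases m1 with m1 | m1
            · rcases m2 with m2 | m2
              · have := congrArg RT.size m1
                have := congrArg RT.size m2
                omega
              · exact hAC (hE C m2).symm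
            · exact hAC (hF A m1)
          · have hC' : C = pt := eq_pt_of_size (by have := C.size_pos; omega)
            subst hC'
            have h1 := hcon _ _ (hA'.right (E.add A)) (Gr.root (F.add pt))
            have m1 : A ∈ (F.add pt).kids := by rw [← h1]; simp
            exact hAC (hF A m1)
        · have hA' : A = pt := eq_pt_of_size (by have := A.size_pos; omega)
          subst hA'
          have hC : 2 ≤ C.size := by
            by_contra hc
            exact hAC (eq_pt_of_size (by have := C.size_pos; omega)).symm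
          obtain ⟨C', hC'⟩ := exists_lf hC
          have h1 := hcon _ _ (Gr.root (E.add pt)) (hC'.right (F.add C))
          have m1 : C ∈ (E.add pt).kids := by rw [h1]; simp
          exact hAC (hE C m1).symm

end Pool.Agent.H48.Drn
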